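import Pool.Agent.H60.SW.Real

/-!
# Antipodal pairs in barycentric coordinates: the classes
-/

set_option autoImplicit false

namespace Pool.Agent.H60.SW

/-- The pair `x, y` is antipodal: some affine function with values in `[0, 1]` on `Q` is `1` at `x`
and `0` at `y` (in barycentric coordinates with respect to four points of `Q`). -/
def Dr (Q : Set (Fin 4 → ℝ)) (x y : Fin 4 → ℝ) : Prop :=
  ∃ u : Fin 4 → ℝ, (∀ i, 0 ≤ u i ∧ u i ≤ 1) ∧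
    (∀ z ∈ Q, 0 ≤ ∑ i, z i * u i ∧ ∑ i, z i * u i ≤ 1) ∧ ∑ i, x i * u i = 1 ∧ ∑ i, y i * u i = 0

/-- The coordinate `r` is nonnegative on `Q`. -/
def Al (Q : Set (Fin 4 → ℝ)) (r : Fin 4) : Prop := ∀ z ∈ Q, 0 ≤ z r

/-- Four different indices. -/
def Dist4 (i j k l : Fin 4) : Prop := i ≠ j ∧ i ≠ k ∧ i ≠ l ∧ j ≠ k ∧ j ≠ l ∧ k ≠ l

instance (i j k l : Fin 4) : Decidable (Dist4 i j k l) := by unfold Dist4; infer_instance

theorem Dist4.sum {i j k l : Fin 4} (h : Dist4 i j k l) (f : Fin 4 → ℝ) :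
    ∑ m, f m = f i + f j + f k + f l := by
  obtain ⟨h1, h2, h3, h4, h5, h6⟩ := h
  have hu : (Finset.univ : Finset (Fin 4)) = {i, j, k, l} := by
    revert i j k l
    decide
  rw [hu, Finset.sum_insert (by simp [h1, h2, h3]), Finset.sum_insert (by simp [h4, h5]),
    Finset.sum_insert (by simp [h6]), Finset.sum_singleton]
  ring

theorem Dist4.cases {i j k l : Fin 4} (h : Dist4 i j k l) (m : Fin 4) :
    m = i ∨ m = j ∨ m = k ∨ m = l := by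
  revert i j k l m
  decide

theorem exists_order (u : Fin 4 → ℝ) (k : Fin 4) :
    ∃ p q r : Fin 4, Dist4 k p q r ∧ u p ≤ u q ∧ u q ≤ u r := by
  obtain ⟨a, b, c, h⟩ : ∃ a b c : Fin 4, Dist4 k a b c := by
    revert k
    decide
  have perm : ∀ k a b c : Fin 4, Dist4 k a b c → Dist4 k a c b ∧ Dist4 k b a c ∧ Dist4 k b c a ∧
      Dist4 k c a b ∧ Dist4 k c b a := by decide
  obtain ⟨h1, h2, h3, h4, h5⟩ := perm k a b c h
  rcases le_total (u a) (u b) with g1 | g1 <;> rcases le_total (u b) (u c) with g2 | g2 <;>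
    rcases le_total (u a) (u c) with g3 | g3
  · exact ⟨a, b, c, h, g1, g2⟩
  · exact ⟨a, b, c, h, g1, g2⟩
  · exact ⟨a, c, b, h1, g3, g2⟩
  · exact ⟨c, a, b, h4, g3, g1⟩
  · exact ⟨b, a, c, h2, g1, g3⟩
  · exact ⟨b, c, a, h3, g2, g3⟩
  · exact ⟨c, b, a, h5, g2, g1⟩
  · exact ⟨c, b, a, h5, g2, g1⟩

variable {Q : Set (Fin 4 → ℝ)}

theorem Dr.symm (hQ : ∀ z ∈ Q, ∑ i, z i = 1) {x y : Fin 4 → ℝ} (hx : x ∈ Q) (hy : y ∈ Q)
    (h : Dr Q x y) : Dr Q y x := by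
  obtain ⟨u, hu, hz, h1, h0⟩ := h
  have key : ∀ z : Fin 4 → ℝ, ∑ i, z i = 1 → ∑ i, z i * (1 - u i) = 1 - ∑ i, z i * u i := by
    intro z hz
    have e : ∑ i, z i * (1 - u i) = ∑ i, z i - ∑ i, z i * u i := by
      rw [← Finset.sum_sub_distrib]
      exact Finset.sum_congr rfl fun i _ => by ring
    rw [e, hz]
  refine ⟨fun i => 1 - u i, fun i => ⟨by linarith [(hu i).2], by linarith [(hu i).1]⟩, ?_, ?_, ?_⟩
  · intro z hzQ
    rw [key z (hQ z hzQ)]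
    obtain ⟨g1, g2⟩ := hz z hzQ
    constructor <;> linarith
  · rw [key y (hQ y hy), h0]; ring
  · rw [key x (hQ x hx), h1]; ring

theorem eq_single {k p q r : Fin 4} (h : Dist4 k p q r) {x : Fin 4 → ℝ} (hk : x k = 0)
    (hp : x p = 0) (hq : x q = 0) (hr : x r = 1) : x = Pi.single r 1 := by
  funext m
  obtain ⟨h1, h2, h3, h4, h5, h6⟩ := id h
  rcases h.cases m with rfl | rfl | rfl | rfl
  · rw [hk, Pi.single_eq_of_ne h3]
  · rw [hp, Pi.single_eq_of_ne h5]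
  · rw [hq, Pi.single_eq_of_ne h6]
  · rw [hr, Pi.single_eq_same]

/-- Antipodal pairs in the class of one negative coordinate. -/
theorem conf1 (hQ : ∀ z ∈ Q, ∑ i, z i = 1) (hQ1 : ∀ z ∈ Q, ∀ i, z i ≤ 1) {k : Fin 4}
    {x y : Fin 4 → ℝ} (hx : x ∈ Q) (hy : y ∈ Q) (hxk : x k ≤ 0) (hxo : ∀ i, i ≠ k → 0 ≤ x i)
    (hyk : y k ≤ 0) (hyo : ∀ i, i ≠ k → 0 ≤ y i) (hD : Dr Q x y) :
    (∃ p, x = Pi.single p 1) ∨ (∃ p, y = Pi.single p 1) ∨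
    (∃ p q r, Dist4 k p q r ∧ x r = 1 ∧ x p = 0 ∧ y p = 1 ∧ y r = 0) ∨
    (∃ r, r ≠ k ∧ Al Q r ∧ (x r = 0 ∨ y r = 0)) := by
  obtain ⟨u, hu, hz, h1, h0⟩ := hD
  obtain ⟨p, q, r, hd, hpq, hqr⟩ := exists_order u k
  obtain ⟨d1, d2, d3, d4, d5, d6⟩ := id hd
  have sx := hQ x hx
  have sy := hQ y hy
  rw [hd.sum] at h1 h0 sx sy
  have perm : ∀ k a b c : Fin 4, Dist4 k a b c → Dist4 k b c a := by decide
  rcases k1_ord hxk (hxo p d1.symm) (hxo q d2.symm) (hQ1 x hx r) sx hyk (hQ1 y hy p)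
    (hyo q d2.symm) (hyo r d3.symm) sy (hu k).1 (hu k).2 (hu p).1 hpq hqr (hu r).2 h1 h0 with
    ⟨e1, e2, e3, e4⟩ | ⟨e1, e2, e3, e4⟩ | ⟨e1, e2, e3, e4⟩ | ⟨e1, e2, e3, e4, e5⟩ |
    ⟨e1, e2, e3, e4, e5⟩
  · right; left
    exact ⟨p, eq_single (perm k p q r hd) e1 e3 e4 e2⟩
  · left
    exact ⟨r, eq_single hd e1 e2 e3 e4⟩
  · right; right; left
    exact ⟨p, q, r, hd, e1, e2, e3, e4⟩
  · right; right; right
    refine ⟨r, d3.symm, ?_, Or.inr e5⟩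
    intro z hzQ
    have := (hz z hzQ).1
    rw [hd.sum, e1, e2, e3, e4] at this
    linarith
  · right; right; right
    refine ⟨p, d1.symm, ?_, Or.inl e5⟩
    intro z hzQ
    have := (hz z hzQ).2
    have hs := hQ z hzQ
    rw [hd.sum] at hs
    rw [hd.sum, e1, e2, e3, e4] at this
    linarith

theorem conf2_aux (hQ : ∀ z ∈ Q, ∑ i, z i = 1) (hQ1 : ∀ z ∈ Q, ∀ i, z i ≤ 1) {i j k l : Fin 4}
    (hd : Dist4 i j k l) {x y u : Fin 4 → ℝ} (hx : x ∈ Q) (hy : y ∈ Q) (hxk : x k ≤ 0)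
    (hxl : x l ≤ 0) (hyk : y k ≤ 0) (hyl : y l ≤ 0) (hu : ∀ i, 0 ≤ u i ∧ u i ≤ 1)
    (hz : ∀ z ∈ Q, 0 ≤ ∑ i, z i * u i ∧ ∑ i, z i * u i ≤ 1) (h1 : ∑ i, x i * u i = 1)
    (h0 : ∑ i, y i * u i = 0) (hij : u i ≤ u j) (hlk : u l ≤ u k) :
    x j = 1 ∧ y i = 1 ∧ (x k = 0 ∨ y k = 0) ∧ (x l = 0 ∨ y l = 0) ∧
      (x k < 0 → x l < 0 → Al Q j) ∧ (y k < 0 → y l < 0 → Al Q i) := by
  have sx := hQ x hx
  have sy := hQ y hy
  rw [hd.sum] at h1 h0 sx sy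
  obtain ⟨f1, f2, f3, f4, f5, f6⟩ := k2_ord (hQ1 x hx i) (hQ1 x hx j) hxk hxl sx (hQ1 y hy i)
    (hQ1 y hy j) hyk hyl sy (hu i).1 hij (hu j).2 (hu l).1 hlk (hu k).2 h1 h0
  refine ⟨f1, f2, f3, f4, ?_, ?_⟩
  · intro g1 g2 z hzQ
    obtain ⟨e1, e2, e3, e4⟩ := f5 g1 g2
    have := (hz z hzQ).1
    rw [hd.sum, e1, e2, e3, e4] at this
    linarith
  · intro g1 g2 z hzQ
    obtain ⟨e1, e2, e3, e4⟩ := f6 g1 g2
    have := (hz z hzQ).2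
    have hs := hQ z hzQ
    rw [hd.sum] at hs
    rw [hd.sum, e1, e2, e3, e4] at this
    linarith

/-- Antipodal pairs in the class of two negative coordinates. -/
theorem conf2 (hQ : ∀ z ∈ Q, ∑ i, z i = 1) (hQ1 : ∀ z ∈ Q, ∀ i, z i ≤ 1) {i j k l : Fin 4}
    (hd : Dist4 i j k l) {x y : Fin 4 → ℝ} (hx : x ∈ Q) (hy : y ∈ Q) (hxk : x k ≤ 0)
    (hxl : x l ≤ 0) (hyk : y k ≤ 0) (hyl : y l ≤ 0) (hD : Dr Q x y) :
    ∃ p q, ((p = i ∧ q = j) ∨ (p = j ∧ q = i)) ∧ x q = 1 ∧ y p = 1 ∧ (x k = 0 ∨ y k = 0) ∧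
      (x l = 0 ∨ y l = 0) ∧ (x k < 0 → x l < 0 → Al Q q) ∧ (y k < 0 → y l < 0 → Al Q p) := by
  obtain ⟨u, hu, hz, h1, h0⟩ := hD
  have perm : ∀ i j k l : Fin 4, Dist4 i j k l → Dist4 j i k l ∧ Dist4 i j l k ∧
      Dist4 j i l k := by decide
  obtain ⟨d1, d2, d3⟩ := perm i j k l hd
  rcases le_total (u i) (u j) with g | g <;> rcases le_total (u l) (u k) with g' | g'
  · obtain ⟨f1, f2, f3, f4, f5, f6⟩ := conf2_aux hQ hQ1 hd hx hy hxk hxl hyk hyl hu hz h1 h0 g g'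
    exact ⟨i, j, Or.inl ⟨rfl, rfl⟩, f1, f2, f3, f4, f5, f6⟩
  · obtain ⟨f1, f2, f3, f4, f5, f6⟩ := conf2_aux hQ hQ1 d2 hx hy hxl hxk hyl hyk hu hz h1 h0 g g'
    exact ⟨i, j, Or.inl ⟨rfl, rfl⟩, f1, f2, f4, f3, fun a b => f5 b a, fun a b => f6 b a⟩
  · obtain ⟨f1, f2, f3, f4, f5, f6⟩ := conf2_aux hQ hQ1 d1 hx hy hxk hxl hyk hyl hu hz h1 h0 g g'
    exact ⟨j, i, Or.inr ⟨rfl, rfl⟩, f1, f2, f3, f4, f5, f6⟩
  · obtain ⟨f1, f2, f3, f4, f5, f6⟩ := conf2_aux hQ hQ1 d3 hx hy hxl hxk hyl hyk hu hz h1 h0 g g'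
    exact ⟨j, i, Or.inr ⟨rfl, rfl⟩, f1, f2, f4, f3, fun a b => f5 b a, fun a b => f6 b a⟩

/-- The class of the pair of negative coordinates `k, l`. -/
def Kp (k l i j : Fin 4) : Set (Fin 4 → ℝ) := {z | z k ≤ 0 ∧ z l ≤ 0 ∧ 0 ≤ z i ∧ 0 ≤ z j}

/-- The part of the simplex added to the class of the pair `k, l`. -/
def Tp (k l i j : Fin 4) : Set (Fin 4 → ℝ) :=
  {z | 0 ≤ z k ∧ 0 ≤ z l ∧ z k ≤ z i ∧ z l ≤ z i ∧ z k ≤ z j ∧ z l ≤ z j}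

theorem confT_aux (hQ : ∀ z ∈ Q, ∑ i, z i = 1) {i j k l : Fin 4}
    (hd : Dist4 i j k l) {x y : Fin 4 → ℝ} (hx : x ∈ Q) (hy : y ∈ Q)
    (hxc : x ∈ Tp k l i j) (hxn : ¬ (x k = 0 ∧ x l = 0)) (hyc : y ∈ Kp k l i j ∨ y ∈ Tp k l i j)
    (hD : Dr Q x y) : False := by
  obtain ⟨u, hu, hz, h1, h0⟩ := hD
  obtain ⟨a1, a2, a3, a4, a5, a6⟩ := hxc
  have sx := hQ x hx
  have sy := hQ y hy
  rw [hd.sum] at h1 h0 sx sy
  have hkl : 0 < x k ∨ 0 < x l := by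
    by_contra hc
    push Not at hc
    exact hxn ⟨by linarith, by linarith⟩
  have hi : 0 < x i := by rcases hkl with g | g <;> linarith
  have hj : 0 < x j := by rcases hkl with g | g <;> linarith
  have e1 : 0 ≤ x i * (1 - u i) := mul_nonneg hi.le (by linarith [(hu i).2])
  have e2 : 0 ≤ x j * (1 - u j) := mul_nonneg hj.le (by linarith [(hu j).2])
  have e3 : 0 ≤ x k * (1 - u k) := mul_nonneg a1 (by linarith [(hu k).2])
  have e4 : 0 ≤ x l * (1 - u l) := mul_nonneg a2 (by linarith [(hu l).2])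
  have e5 : x i * (1 - u i) + x j * (1 - u j) + x k * (1 - u k) + x l * (1 - u l) = 0 := by
    linear_combination sx - h1
  have f1 : u i = 1 := by
    rcases mul_eq_zero.mp (by linarith : x i * (1 - u i) = 0) with g | g <;> linarith
  have f2 : u j = 1 := by
    rcases mul_eq_zero.mp (by linarith : x j * (1 - u j) = 0) with g | g <;> linarith
  rw [f1, f2] at h0
  rcases hyc with ⟨b1, b2, b3, b4⟩ | ⟨b1, b2, b3, b4, b5, b6⟩
  · have g1 : y k ≤ y k * u k := by nlinarith [(hu k).2]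
    have g2 : y l ≤ y l * u l := by nlinarith [(hu l).2]
    linarith
  · have g1 : 0 ≤ y k * u k := mul_nonneg b1 (hu k).1
    have g2 : 0 ≤ y l * u l := mul_nonneg b2 (hu l).1
    linarith

/-- An antipodal pair in the class of `k, l` does not involve the interior of the simplex. -/
theorem confT (hQ : ∀ z ∈ Q, ∑ i, z i = 1) {i j k l : Fin 4}
    (hd : Dist4 i j k l) {x y : Fin 4 → ℝ} (hx : x ∈ Q) (hy : y ∈ Q)
    (hxc : x ∈ Kp k l i j ∨ x ∈ Tp k l i j) (hyc : y ∈ Kp k l i j ∨ y ∈ Tp k l i j)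
    (hD : Dr Q x y) : x ∈ Kp k l i j ∧ y ∈ Kp k l i j := by
  constructor
  · rcases hxc with h | h
    · exact h
    · by_cases hn : x k = 0 ∧ x l = 0
      · obtain ⟨a1, a2, a3, a4, a5, a6⟩ := h
        exact ⟨hn.1.le, hn.2.le, by linarith, by linarith⟩
      · exact (confT_aux hQ hd hx hy h hn hyc hD).elim
  · rcases hyc with h | h
    · exact h
    · by_cases hn : y k = 0 ∧ y l = 0
      · obtain ⟨a1, a2, a3, a4, a5, a6⟩ := h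
        exact ⟨hn.1.le, hn.2.le, by linarith, by linarith⟩
      · exact (confT_aux hQ hd hy hx h hn hxc (hD.symm hQ hx hy)).elim

end Pool.Agent.H60.SW
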