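import Mathlib

/-!
# Closed conflict-free covers: removing neighbourhoods of special sets in a given order
-/

set_option autoImplicit false

namespace Pool.Agent.H60.SW

open Metric Set

variable {X : Type*} {ι : Type*}

/-- The list of special sets (with their classes) resolves all conflicts inside the classes. -/
def Good (D : X → X → Prop) (C : ι → Set X) : Set X → List (Set X × ι) → Prop
  | R, [] => ∀ c, ∀ x ∈ C c, x ∈ R → ∀ y ∈ C c, y ∈ R → ¬ D x y
  | R, (Z, c) :: L => (∀ x ∈ Z, x ∈ R → x ∈ C c ∧ ∀ y ∈ C c, y ∈ R → ¬ D x y) ∧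
      Good D C (R \ Z) L

theorem Good.mono {D : X → X → Prop} {C : ι → Set X} (L : List (Set X × ι)) :
    ∀ {R R' : Set X}, R' ⊆ R → Good D C R L → Good D C R' L := by
  induction L with
  | nil =>
    intro R R' h hg c x hx hxR y hy hyR
    exact hg c x hx (h hxR) y hy (h hyR)
  | cons a L ih =>
    obtain ⟨Z, c⟩ := a
    intro R R' h hg
    obtain ⟨h1, h2⟩ := hg
    refine ⟨fun x hx hxR => ?_, ih (sdiff_subset_sdiff_left h) h2⟩
    obtain ⟨g1, g2⟩ := h1 x hx (h hxR)
    exact ⟨g1, fun y hy hyR => g2 y hy (h hyR)⟩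

theorem greedy [PseudoMetricSpace X] [DecidableEq ι] {D : X → X → Prop} {C : ι → Set X} {Q : Set X} (hQ : IsCompact Q)
    (hDs : ∀ x ∈ Q, ∀ y ∈ Q, D x y → D y x)
    (hDc : IsClosed {p : X × X | p.1 ∈ Q ∧ p.2 ∈ Q ∧ D p.1 p.2})
    (hC : ∀ c, IsClosed (C c)) (L : List (Set X × ι)) :
    (∀ a ∈ L, IsClosed a.1) → ∀ R : Set X, IsCompact R → R ⊆ Q → R ⊆ ⋃ c, C c →
    ∀ P : ι → Set X, (∀ c, IsCompact (P c)) → (∀ c, P c ⊆ Q) →
    (∀ c, ∀ x ∈ P c, ∀ y ∈ P c ∪ (C c ∩ R), ¬ D x y) → Good D C R L →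
    ∃ G : ι → Set X, (∀ c, IsCompact (G c)) ∧ (∀ c, G c ⊆ Q) ∧ (∀ c, P c ⊆ G c) ∧
      (R ⊆ ⋃ c, G c) ∧ ∀ c, ∀ x ∈ G c, ∀ y ∈ G c, ¬ D x y := by
  induction L with
  | nil =>
    intro _ R hR hRQ hRC P hP hPQ hPD hg
    refine ⟨fun c => P c ∪ (C c ∩ R), fun c => (hP c).union (hR.inter_left (hC c)), fun c => ?_,
      fun c => subset_union_left, ?_, ?_⟩
    · exact union_subset (hPQ c) (inter_subset_right.trans hRQ)
    · intro x hx
      obtain ⟨c, hc⟩ := mem_iUnion.mp (hRC hx)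
      exact mem_iUnion.mpr ⟨c, Or.inr ⟨hc, hx⟩⟩
    · intro c x hx y hy
      rcases hx with hx | hx
      · exact hPD c x hx y hy
      · rcases hy with hy | hy
        · intro hD
          exact hPD c y hy x (Or.inr hx) (hDs x (hRQ hx.2) y (hPQ c hy) hD)
        · exact hg c x hx.1 hx.2 y hy.1 hy.2
  | cons a L ih =>
    obtain ⟨Z, c₀⟩ := a
    intro hL R hR hRQ hRC P hP hPQ hPD hg
    obtain ⟨h1, h2⟩ := hg
    have hZ : IsClosed Z := hL (Z, c₀) (by simp)
    have hK1 : IsCompact (Z ∩ R) := hR.inter_left hZ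
    have hK2 : IsCompact (P c₀ ∪ (C c₀ ∩ R)) := (hP c₀).union (hR.inter_left (hC c₀))
    have hK12 : Z ∩ R ⊆ P c₀ ∪ (C c₀ ∩ R) := fun x hx => Or.inr ⟨(h1 x hx.1 hx.2).1, hx.2⟩
    have hK2Q : P c₀ ∪ (C c₀ ∩ R) ⊆ Q :=
      union_subset (hPQ c₀) (inter_subset_right.trans hRQ)
    have hno : ∀ x ∈ Z ∩ R, ∀ y ∈ P c₀ ∪ (C c₀ ∩ R), ¬ D x y := by
      intro x hx y hy
      rcases hy with hy | hy
      · intro hD
        exact hPD c₀ y hy x (hK12 hx) (hDs x (hRQ hx.2) y (hPQ c₀ hy) hD)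
      · exact (h1 x hx.1 hx.2).2 y hy.1 hy.2
    have hdis : Disjoint ((Z ∩ R) ×ˢ (P c₀ ∪ (C c₀ ∩ R)))
        {p : X × X | p.1 ∈ Q ∧ p.2 ∈ Q ∧ D p.1 p.2} := by
      rw [Set.disjoint_left]
      rintro ⟨x, y⟩ hp ⟨_, _, hD⟩
      exact hno x hp.1 y hp.2 hD
    obtain ⟨r, hr, hrd⟩ := hdis.exists_cthickenings (hK1.prod hK2) hDc
    have hr' : Disjoint (cthickening r ((Z ∩ R) ×ˢ (P c₀ ∪ (C c₀ ∩ R))))
        {p : X × X | p.1 ∈ Q ∧ p.2 ∈ Q ∧ D p.1 p.2} :=
      hrd.mono_right (self_subset_cthickening _)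
    -- nearby pairs are conflict free
    have near : ∀ x x' y y' : X, x' ∈ Z ∩ R → y' ∈ P c₀ ∪ (C c₀ ∩ R) → dist x x' ≤ r →
        dist y y' ≤ r → x ∈ Q → y ∈ Q → ¬ D x y := by
      intro x x' y y' hx' hy' hxx hyy hxQ hyQ hD
      have hmem : (x, y) ∈ cthickening r ((Z ∩ R) ×ˢ (P c₀ ∪ (C c₀ ∩ R))) := by
        have hd : dist (x, y) (x', y') ≤ r := by
          rw [Prod.dist_eq]
          exact max_le hxx hyy
        exact mem_cthickening_of_dist_le (x, y) (x', y') r _ (Set.mk_mem_prod hx' hy') hd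
      exact Set.disjoint_left.mp hr' hmem ⟨hxQ, hyQ, hD⟩
    have hth : ∀ x ∈ cthickening r (Z ∩ R), ∃ x' ∈ Z ∩ R, dist x x' ≤ r := by
      intro x hx
      rw [hK1.cthickening_eq_biUnion_closedBall hr.le] at hx
      obtain ⟨x', hx', hd⟩ := mem_iUnion₂.mp hx
      exact ⟨x', hx', hd⟩
    set N : Set X := cthickening r (Z ∩ R) ∩ Q with hN
    have hNc : IsCompact N := hQ.inter_left isClosed_cthickening
    set P' : ι → Set X := fun c => if c = c₀ then P c ∪ N else P c with hP'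
    have hP'c : P' c₀ = P c₀ ∪ N := by simp [hP']
    have hP'n : ∀ c, c ≠ c₀ → P' c = P c := fun c hc => by simp [hP', hc]
    have hPP' : ∀ c, P c ⊆ P' c := by
      intro c
      by_cases hc : c = c₀
      · subst hc
        rw [hP'c]
        exact subset_union_left
      · rw [hP'n c hc]
    set R' : Set X := R \ thickening r (Z ∩ R) with hR'
    have hR'R : R' ⊆ R := sdiff_subset
    have hR'Z : R' ⊆ R \ Z := by
      intro x hx
      refine ⟨hx.1, fun hxZ => hx.2 (self_subset_thickening hr _ ⟨hxZ, hx.1⟩)⟩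
    obtain ⟨G, g1, g2, g3, g4, g5⟩ := ih (fun a ha => hL a (by simp [ha])) R'
      (hR.diff isOpen_thickening) (hR'R.trans hRQ) (hR'R.trans hRC) P'
      (fun c => by
        by_cases hc : c = c₀
        · subst hc; rw [hP'c]; exact (hP _).union hNc
        · rw [hP'n c hc]; exact hP c)
      (fun c => by
        by_cases hc : c = c₀
        · subst hc; rw [hP'c]; exact union_subset (hPQ _) inter_subset_right
        · rw [hP'n c hc]; exact hPQ c)
      (fun c => by
        by_cases hc : c = c₀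
        · subst hc
          rw [hP'c]
          intro x hx y hy
          rcases hx with hx | hx
          · rcases hy with (hy | hy) | hy
            · exact hPD _ x hx y (Or.inl hy)
            · intro hD
              obtain ⟨y', hy', hd⟩ := hth y hy.1
              exact near y y' x x hy' (Or.inl hx) hd (by rw [dist_self]; exact hr.le) hy.2
                (hPQ _ hx) (hDs x (hPQ _ hx) y hy.2 hD)
            · exact hPD _ x hx y (Or.inr ⟨hy.1, hR'R hy.2⟩)
          · obtain ⟨x', hx', hd⟩ := hth x hx.1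
            rcases hy with (hy | hy) | hy
            · exact near x x' y y hx' (Or.inl hy) hd (by rw [dist_self]; exact hr.le) hx.2
                (hPQ _ hy)
            · obtain ⟨y', hy', hd'⟩ := hth y hy.1
              exact near x x' y y' hx' (hK12 hy') hd hd' hx.2 hy.2
            · exact near x x' y y hx' (Or.inr ⟨hy.1, hR'R hy.2⟩) hd
                (by rw [dist_self]; exact hr.le) hx.2 (hRQ (hR'R hy.2))
        · rw [hP'n c hc]
          intro x hx y hy
          rcases hy with hy | hy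
          · exact hPD c x hx y (Or.inl hy)
          · exact hPD c x hx y (Or.inr ⟨hy.1, hR'R hy.2⟩))
      (Good.mono L hR'Z h2)
    refine ⟨G, g1, g2, fun c => (hPP' c).trans (g3 c), ?_, g5⟩
    intro x hx
    by_cases hxt : x ∈ thickening r (Z ∩ R)
    · refine mem_iUnion.mpr ⟨c₀, g3 c₀ ?_⟩
      rw [hP'c]
      exact Or.inr ⟨thickening_subset_cthickening _ _ hxt, hRQ hx⟩
    · exact g4 ⟨hx, hxt⟩

end Pool.Agent.H60.SW
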