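import Pool.Agent.H60.SW.Conf
import Pool.Agent.H60.SW.Greedy

/-!
# The eleven classes
-/

set_option autoImplicit false

namespace Pool.Agent.H60.SW

open Set

/-- The unit vectors (the vertices of the simplex). -/
abbrev ev (p : Fin 4) : Fin 4 → ℝ := Pi.single p 1

/-- The properties of the set of barycentric coordinates of the points of a convex body with
respect to a lexicographically extremal simplex of maximal volume. -/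
structure Ctx (Q : Set (Fin 4 → ℝ)) : Prop where
  cpt : IsCompact Q
  sum : ∀ z ∈ Q, ∑ i, z i = 1
  le1 : ∀ z ∈ Q, ∀ i, z i ≤ 1
  ab0 : ∀ j k l : Fin 4, Dist4 0 j k l → j < k → ∀ z ∈ Q, z 0 = 1 → z l = 0 → 0 ≤ z k
  ab : ∀ i j k l : Fin 4, Dist4 i j k l → i ≠ 0 → k < j → ∀ z ∈ Q, z i = 1 → z l = 0 → 0 ≤ z k

/-- The points with exactly the coordinate `k` negative (closed). -/
def Ks (k : Fin 4) : Set (Fin 4 → ℝ) := {z | z k ≤ 0 ∧ ∀ i, i ≠ k → 0 ≤ z i}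

theorem isClosed_Ks (k : Fin 4) : IsClosed (Ks k) := by
  have h : Ks k = {z : Fin 4 → ℝ | z k ≤ 0} ∩ ⋂ i, ⋂ (_ : i ≠ k), {z : Fin 4 → ℝ | 0 ≤ z i} := by
    ext z
    simp [Ks]
  rw [h]
  exact (isClosed_le (continuous_apply k) continuous_const).inter
    (isClosed_iInter fun i => isClosed_iInter fun _ =>
      isClosed_le continuous_const (continuous_apply i))

theorem isClosed_Kp (k l i j : Fin 4) : IsClosed (Kp k l i j) := by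
  have c := fun m : Fin 4 => continuous_apply (A := fun _ : Fin 4 => ℝ) m
  exact (isClosed_le (c k) continuous_const).inter ((isClosed_le (c l) continuous_const).inter
    ((isClosed_le continuous_const (c i)).inter (isClosed_le continuous_const (c j))))

theorem isClosed_Tp (k l i j : Fin 4) : IsClosed (Tp k l i j) := by
  have c := fun m : Fin 4 => continuous_apply (A := fun _ : Fin 4 => ℝ) m
  exact (isClosed_le continuous_const (c k)).inter ((isClosed_le continuous_const (c l)).inter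
    ((isClosed_le (c k) (c i)).inter ((isClosed_le (c l) (c i)).inter
    ((isClosed_le (c k) (c j)).inter (isClosed_le (c l) (c j))))))

theorem Kp_comm (k l i j : Fin 4) : Kp k l i j = Kp k l j i := by
  ext z
  exact ⟨fun ⟨a, b, c, d⟩ => ⟨a, b, d, c⟩, fun ⟨a, b, c, d⟩ => ⟨a, b, d, c⟩⟩

theorem Tp_comm (k l i j : Fin 4) : Tp k l i j = Tp k l j i := by
  ext z
  exact ⟨fun ⟨a, b, c, d, e, f⟩ => ⟨a, b, e, f, c, d⟩, fun ⟨a, b, c, d, e, f⟩ => ⟨a, b, e, f, c, d⟩⟩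

variable {Q : Set (Fin 4 → ℝ)}

theorem not_Dr_self (x : Fin 4 → ℝ) : ¬ Dr Q x x := by
  rintro ⟨u, _, _, h1, h0⟩
  rw [h1] at h0
  norm_num at h0

theorem Ctx.eqe (h : Ctx Q) {i j k l : Fin 4} (hd : Dist4 i j k l) {x : Fin 4 → ℝ} (hx : x ∈ Q)
    (hi : x i = 1) (hk : x k = 0) (hl : x l = 0) : x = ev i := by
  have hs := h.sum x hx
  rw [hd.sum, hi, hk, hl] at hs
  have hj : x j = 0 := by linarith
  have perm : ∀ i j k l : Fin 4, Dist4 i j k l → Dist4 j k l i := by decide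
  exact eq_single (perm i j k l hd) hj hk hl hi

/-- Antipodal pairs of non-vertices in the class of `k, l`. -/
theorem Ctx.pairA (h : Ctx Q) {i j k l : Fin 4} (hd : Dist4 i j k l) {x y : Fin 4 → ℝ}
    (hx : x ∈ Q) (hy : y ∈ Q) (hxc : x ∈ Kp k l i j ∪ Tp k l i j)
    (hyc : y ∈ Kp k l i j ∪ Tp k l i j) (hxi : x ≠ ev i) (hxj : x ≠ ev j) (hyi : y ≠ ev i)
    (hyj : y ≠ ev j) (hD : Dr Q x y) :
    ∃ p q, ((p = i ∧ q = j) ∨ (p = j ∧ q = i)) ∧ x ∈ Kp k l i j ∧ y ∈ Kp k l i j ∧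
      x q = 1 ∧ y p = 1 ∧
      ((x k = 0 ∧ x l < 0 ∧ y l = 0 ∧ y k < 0) ∨ (x l = 0 ∧ x k < 0 ∧ y k = 0 ∧ y l < 0)) := by
  obtain ⟨kx, ky⟩ := confT h.sum hd hx hy hxc hyc hD
  obtain ⟨p, q, hpq, f1, f2, f3, f4, _, _⟩ := conf2 h.sum h.le1 hd hx hy kx.1 kx.2.1 ky.1 ky.2.1 hD
  have perm : ∀ i j k l : Fin 4, Dist4 i j k l → Dist4 j i k l := by decide
  have nx : ¬ (x k = 0 ∧ x l = 0) := by
    rintro ⟨g1, g2⟩
    rcases hpq with ⟨rfl, rfl⟩ | ⟨rfl, rfl⟩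
    · exact hxj (h.eqe (perm _ _ _ _ hd) hx f1 g1 g2)
    · exact hxi (h.eqe hd hx f1 g1 g2)
  have ny : ¬ (y k = 0 ∧ y l = 0) := by
    rintro ⟨g1, g2⟩
    rcases hpq with ⟨rfl, rfl⟩ | ⟨rfl, rfl⟩
    · exact hyi (h.eqe hd hy f2 g1 g2)
    · exact hyj (h.eqe (perm _ _ _ _ hd) hy f2 g1 g2)
  refine ⟨p, q, hpq, kx, ky, f1, f2, ?_⟩
  rcases f3 with g | g <;> rcases f4 with g' | g'
  · exact absurd ⟨g, g'⟩ nx
  · exact Or.inl ⟨g, lt_of_le_of_ne kx.2.1 fun e => nx ⟨g, e⟩, g',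
      lt_of_le_of_ne ky.1 fun e => ny ⟨e, g'⟩⟩
  · exact Or.inr ⟨g', lt_of_le_of_ne kx.1 fun e => nx ⟨e, g'⟩, g,
      lt_of_le_of_ne ky.2.1 fun e => ny ⟨g, e⟩⟩
  · exact absurd ⟨g, g'⟩ ny

/-- A vertex in a class of a pair. -/
theorem Ctx.itemV (h : Ctx Q) {i j k l : Fin 4} (hd : Dist4 i j k l) {y : Fin 4 → ℝ}
    (hx : ev j ∈ Q) (hy : y ∈ Q) (hyc : y ∈ Kp k l i j ∪ Tp k l i j) (hyi : y ≠ ev i)
    (hA : ¬ Al Q i) (a1 : ∀ z ∈ Q, z i = 1 → z k = 0 → 0 ≤ z l)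
    (a2 : ∀ z ∈ Q, z i = 1 → z l = 0 → 0 ≤ z k) : ¬ Dr Q (ev j) y := by
  intro hD
  obtain ⟨d1, d2, d3, d4, d5, d6⟩ := id hd
  have ek : ev j k = 0 := Pi.single_eq_of_ne d4.symm _
  have el : ev j l = 0 := Pi.single_eq_of_ne d5.symm _
  have ei : ev j i = 0 := Pi.single_eq_of_ne d1 _
  have ej : ev j j = 1 := Pi.single_eq_same _ _
  have hxc : ev j ∈ Kp k l i j ∪ Tp k l i j := Or.inl ⟨ek.le, el.le, ei.ge, by rw [ej]; norm_num⟩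
  obtain ⟨kx, ky⟩ := confT h.sum hd hx hy hxc hyc hD
  obtain ⟨p, q, hpq, f1, f2, f3, f4, _, f6⟩ :=
    conf2 h.sum h.le1 hd hx hy kx.1 kx.2.1 ky.1 ky.2.1 hD
  rcases hpq with ⟨rfl, rfl⟩ | ⟨rfl, rfl⟩
  · by_cases g : y k < 0
    · by_cases g' : y l < 0
      · exact hA (f6 g g')
      · have e : y l = 0 := le_antisymm ky.2.1 (not_lt.mp g')
        linarith [a2 y hy f2 e]
    · have e : y k = 0 := le_antisymm ky.1 (not_lt.mp g)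
      have e' : y l = 0 := le_antisymm ky.2.1 (a1 y hy f2 e)
      exact hyi (h.eqe hd hy f2 e e')
  · rw [ei] at f1
    norm_num at f1

/-- No point of `x` lies in a class `k, l` with a coordinate which is nonnegative on `Q`. -/
def NW (Q : Set (Fin 4 → ℝ)) (x : Fin 4 → ℝ) : Prop :=
  ∀ k l : Fin 4, k ≠ l → Al Q l → x k ≤ 0 → x l ≤ 0 → (∀ m, m ≠ k → m ≠ l → 0 ≤ x m) → False

/-- Antipodal pairs of non-vertices in the class of `k`. -/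
theorem Ctx.singleA (h : Ctx Q) {k : Fin 4} {x y : Fin 4 → ℝ} (hx : x ∈ Q) (hy : y ∈ Q)
    (hxc : x ∈ Ks k) (hyc : y ∈ Ks k) (hxv : ∀ p, x ≠ ev p) (hyv : ∀ p, y ≠ ev p)
    (hxw : NW Q x) (hyw : NW Q y) (hD : Dr Q x y) :
    ∃ p q r, Dist4 k p q r ∧ x r = 1 ∧ x p = 0 ∧ y p = 1 ∧ y r = 0 ∧ x k < 0 ∧ y k < 0 := by
  have perm : ∀ k p q r : Fin 4, Dist4 k p q r → Dist4 r q k p ∧ Dist4 p q k r := by decide
  rcases conf1 h.sum h.le1 hx hy hxc.1 hxc.2 hyc.1 hyc.2 hD with ⟨p, e⟩ | ⟨p, e⟩ |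
    ⟨p, q, r, hd, e1, e2, e3, e4⟩ | ⟨r, hr, ha, e⟩
  · exact absurd e (hxv p)
  · exact absurd e (hyv p)
  · obtain ⟨d1, d2⟩ := perm k p q r hd
    refine ⟨p, q, r, hd, e1, e2, e3, e4, ?_, ?_⟩
    · exact lt_of_le_of_ne hxc.1 fun e => hxv r (h.eqe d1 hx e1 e e2)
    · exact lt_of_le_of_ne hyc.1 fun e => hyv p (h.eqe d2 hy e3 e e4)
  · exfalso
    rcases e with e | e
    · exact hxw k r hr.symm ha hxc.1 e.le fun m hm _ => hxc.2 m hm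
    · exact hyw k r hr.symm ha hyc.1 e.le fun m hm _ => hyc.2 m hm

theorem enum0 : ∀ p q r : Fin 4, Dist4 0 p q r → (p = 1 ∧ q = 2 ∧ r = 3) ∨
    (p = 1 ∧ q = 3 ∧ r = 2) ∨ (p = 2 ∧ q = 1 ∧ r = 3) ∨ (p = 2 ∧ q = 3 ∧ r = 1) ∨
    (p = 3 ∧ q = 1 ∧ r = 2) ∨ (p = 3 ∧ q = 2 ∧ r = 1) := by decide

theorem enum1 : ∀ p q r : Fin 4, Dist4 1 p q r → (p = 0 ∧ q = 2 ∧ r = 3) ∨
    (p = 0 ∧ q = 3 ∧ r = 2) ∨ (p = 2 ∧ q = 0 ∧ r = 3) ∨ (p = 2 ∧ q = 3 ∧ r = 0) ∨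
    (p = 3 ∧ q = 0 ∧ r = 2) ∨ (p = 3 ∧ q = 2 ∧ r = 0) := by decide

theorem enum2 : ∀ p q r : Fin 4, Dist4 2 p q r → (p = 0 ∧ q = 1 ∧ r = 3) ∨
    (p = 0 ∧ q = 3 ∧ r = 1) ∨ (p = 1 ∧ q = 0 ∧ r = 3) ∨ (p = 1 ∧ q = 3 ∧ r = 0) ∨
    (p = 3 ∧ q = 0 ∧ r = 1) ∨ (p = 3 ∧ q = 1 ∧ r = 0) := by decide

theorem enum3 : ∀ p q r : Fin 4, Dist4 3 p q r → (p = 0 ∧ q = 1 ∧ r = 2) ∨
    (p = 0 ∧ q = 2 ∧ r = 1) ∨ (p = 1 ∧ q = 0 ∧ r = 2) ∨ (p = 1 ∧ q = 2 ∧ r = 0) ∨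
    (p = 2 ∧ q = 0 ∧ r = 1) ∨ (p = 2 ∧ q = 1 ∧ r = 0) := by decide

/-- The special sets on the faces. -/
def Za : Set (Fin 4 → ℝ) := {z | z 1 = 1} ∩ Kp 2 3 0 1

/-- The special sets on the faces. -/
def Zb : Set (Fin 4 → ℝ) := {z | z 0 = 1} ∩ {z | z 1 = 0} ∩ Ks 2

/-- The special sets on the faces. -/
def Zc : Set (Fin 4 → ℝ) := {z | z 2 = 1} ∩ {z | z 1 = 0} ∩ Ks 3

/-- The special sets on the faces. -/
def Zd : Set (Fin 4 → ℝ) := {z | z 2 = 1} ∩ Kp 1 3 0 2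

/-- The special sets on the faces. -/
def Ze : Set (Fin 4 → ℝ) := {z | z 0 = 1} ∩ {z | z 2 = 0} ∩ Ks 1

/-- The special set of the pair `k, l` if one of the coordinates is nonnegative on `Q`. -/
def Wp (Q : Set (Fin 4 → ℝ)) (k l i j : Fin 4) : Set (Fin 4 → ℝ) :=
  {z | z ∈ Kp k l i j ∧ (Al Q k ∨ Al Q l)}

theorem isClosed_Wp (k l i j : Fin 4) : IsClosed (Wp Q k l i j) := by
  by_cases h : Al Q k ∨ Al Q l
  · have : Wp Q k l i j = Kp k l i j := by ext z; simp [Wp, h]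
    rw [this]
    exact isClosed_Kp k l i j
  · have : Wp Q k l i j = ∅ := by ext z; simp [Wp, h]
    rw [this]
    exact isClosed_empty

theorem isClosed_coord (i : Fin 4) (c : ℝ) : IsClosed {z : Fin 4 → ℝ | z i = c} :=
  isClosed_eq (continuous_apply i) continuous_const

end Pool.Agent.H60.SW
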