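import Pool.Agent.H60.SW.Core

/-!
# The eleven classes: the special sets resolve all antipodal pairs
-/

set_option autoImplicit false

namespace Pool.Agent.H60.SW

open Set

variable {Q : Set (Fin 4 → ℝ)}

/-- The eleven classes. -/
inductive Cl
  | own | s0 | s1 | s2 | s3 | p01 | p02 | p03 | p12 | p13 | p23
  deriving DecidableEq

open Classical in
/-- The closed sets of the classes. -/
noncomputable def CC (Q : Set (Fin 4 → ℝ)) : Cl → Set (Fin 4 → ℝ)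
  | .own => {ev 0}
  | .s0 => if Al Q 0 then {ev 1} else Ks 0
  | .s1 => if Al Q 1 then {ev 3} else Ks 1
  | .s2 => if Al Q 2 then ∅ else Ks 2
  | .s3 => if Al Q 3 then {ev 2} else Ks 3
  | .p01 => Kp 0 1 2 3 ∪ Tp 0 1 2 3
  | .p02 => Kp 0 2 1 3 ∪ Tp 0 2 1 3
  | .p03 => Kp 0 3 1 2 ∪ Tp 0 3 1 2
  | .p12 => Kp 1 2 0 3 ∪ Tp 1 2 0 3
  | .p13 => Kp 1 3 0 2 ∪ Tp 1 3 0 2
  | .p23 => Kp 2 3 0 1 ∪ Tp 2 3 0 1

open Classical in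
/-- The special sets, in their order, with their classes. -/
noncomputable def LL (Q : Set (Fin 4 → ℝ)) : List (Set (Fin 4 → ℝ) × Cl) :=
  [({ev 0}, .own), ({ev 1}, if Al Q 0 then .s0 else .p23), ({ev 3}, if Al Q 1 then .s1 else .p02),
    ({ev 2}, if Al Q 3 then .s3 else .p01), (Wp Q 0 1 2 3, .p01), (Wp Q 0 2 1 3, .p02),
    (Wp Q 0 3 1 2, .p03), (Wp Q 1 2 0 3, .p12), (Wp Q 1 3 0 2, .p13), (Wp Q 2 3 0 1, .p23),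
    (Za, .p23), (Zb, .s2), (Zc, .s3), (Zd, .p13), (Ze, .s1)]

theorem isClosed_CC (c : Cl) : IsClosed (CC Q c) := by
  have sing : ∀ x : Fin 4 → ℝ, IsClosed ({x} : Set (Fin 4 → ℝ)) := fun x => isClosed_singleton
  cases c <;> simp only [CC]
  · exact sing _
  · split_ifs
    exacts [sing _, isClosed_Ks 0]
  · split_ifs
    exacts [sing _, isClosed_Ks 1]
  · split_ifs
    exacts [isClosed_empty, isClosed_Ks 2]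
  · split_ifs
    exacts [sing _, isClosed_Ks 3]
  all_goals exact (isClosed_Kp _ _ _ _).union (isClosed_Tp _ _ _ _)

theorem isClosed_LL (a : Set (Fin 4 → ℝ) × Cl) (ha : a ∈ LL Q) : IsClosed a.1 := by
  simp only [LL, List.mem_cons, List.not_mem_nil, or_false] at ha
  rcases ha with rfl | rfl | rfl | rfl | rfl | rfl | rfl | rfl | rfl | rfl | rfl | rfl | rfl |
    rfl | rfl
  · exact isClosed_singleton
  · exact isClosed_singleton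
  · exact isClosed_singleton
  · exact isClosed_singleton
  · exact isClosed_Wp _ _ _ _
  · exact isClosed_Wp _ _ _ _
  · exact isClosed_Wp _ _ _ _
  · exact isClosed_Wp _ _ _ _
  · exact isClosed_Wp _ _ _ _
  · exact isClosed_Wp _ _ _ _
  · exact (isClosed_coord 1 1).inter (isClosed_Kp _ _ _ _)
  · exact ((isClosed_coord 0 1).inter (isClosed_coord 1 0)).inter (isClosed_Ks _)
  · exact ((isClosed_coord 2 1).inter (isClosed_coord 1 0)).inter (isClosed_Ks _)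
  · exact (isClosed_coord 2 1).inter (isClosed_Kp _ _ _ _)
  · exact ((isClosed_coord 0 1).inter (isClosed_coord 2 0)).inter (isClosed_Ks _)

theorem Ctx.it1 (h : Ctx Q) {y : Fin 4 → ℝ} (hx : ev 1 ∈ Q) (hy : y ∈ Q) (hy0 : y ≠ ev 0)
    (hA : ¬ Al Q 0) (hc : y ∈ Kp 2 3 0 1 ∪ Tp 2 3 0 1) : ¬ Dr Q (ev 1) y :=
  h.itemV (i := 0) (j := 1) (k := 2) (l := 3) (by decide) hx hy hc hy0 hA
    (h.ab0 1 3 2 (by decide) (by decide)) (h.ab0 1 2 3 (by decide) (by decide))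

theorem Ctx.it3 (h : Ctx Q) {y : Fin 4 → ℝ} (hx : ev 3 ∈ Q) (hy : y ∈ Q) (hy0 : y ≠ ev 1)
    (hA : ¬ Al Q 1) (hc : y ∈ Kp 0 2 1 3 ∪ Tp 0 2 1 3) : ¬ Dr Q (ev 3) y :=
  h.itemV (i := 1) (j := 3) (k := 0) (l := 2) (by decide) hx hy hc hy0 hA
    (h.ab 1 3 2 0 (by decide) (by decide) (by decide))
    (h.ab 1 3 0 2 (by decide) (by decide) (by decide))

theorem Ctx.it2 (h : Ctx Q) {y : Fin 4 → ℝ} (hx : ev 2 ∈ Q) (hy : y ∈ Q) (hy0 : y ≠ ev 3)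
    (hA : ¬ Al Q 3) (hc : y ∈ Kp 0 1 2 3 ∪ Tp 0 1 2 3) : ¬ Dr Q (ev 2) y :=
  h.itemV (i := 3) (j := 2) (k := 0) (l := 1) (by decide) hx hy
    (by rw [Kp_comm 0 1 3 2, Tp_comm 0 1 3 2]; exact hc) hy0 hA
    (h.ab 3 2 1 0 (by decide) (by decide) (by decide))
    (h.ab 3 2 0 1 (by decide) (by decide) (by decide))

theorem Ctx.itW (h : Ctx Q) {i j k l : Fin 4} (hd : Dist4 i j k l) {x y : Fin 4 → ℝ}
    (hx : x ∈ Q) (hy : y ∈ Q) (hxv : ∀ p, x ≠ ev p) (hyv : ∀ p, y ≠ ev p)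
    (hxw : x ∈ Wp Q k l i j) (hyc : y ∈ Kp k l i j ∪ Tp k l i j) : ¬ Dr Q x y := by
  intro hD
  obtain ⟨p, q, _, _, _, _, _, hc⟩ := h.pairA hd hx hy (Or.inl hxw.1) hyc (hxv i) (hxv j) (hyv i)
    (hyv j) hD
  rcases hxw.2 with ha | ha
  · rcases hc with ⟨_, _, _, g⟩ | ⟨_, g, _, _⟩
    · exact absurd (ha y hy) (not_le.mpr g)
    · exact absurd (ha x hx) (not_le.mpr g)
  · rcases hc with ⟨_, g, _, _⟩ | ⟨_, _, _, g⟩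
    · exact absurd (ha x hx) (not_le.mpr g)
    · exact absurd (ha y hy) (not_le.mpr g)

theorem NW_of {x : Fin 4 → ℝ} (h01 : x ∉ Wp Q 0 1 2 3) (h02 : x ∉ Wp Q 0 2 1 3)
    (h03 : x ∉ Wp Q 0 3 1 2) (h12 : x ∉ Wp Q 1 2 0 3) (h13 : x ∉ Wp Q 1 3 0 2)
    (h23 : x ∉ Wp Q 2 3 0 1) : NW Q x := by
  have key : ∀ k l : Fin 4, k < l → (Al Q k ∨ Al Q l) → x k ≤ 0 → x l ≤ 0 →
      (∀ m, m ≠ k → m ≠ l → 0 ≤ x m) → False := by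
    intro k l hkl ha hk hl hm
    have en : ∀ k l : Fin 4, k < l → (k = 0 ∧ l = 1) ∨ (k = 0 ∧ l = 2) ∨ (k = 0 ∧ l = 3) ∨
        (k = 1 ∧ l = 2) ∨ (k = 1 ∧ l = 3) ∨ (k = 2 ∧ l = 3) := by decide
    rcases en k l hkl with ⟨rfl, rfl⟩ | ⟨rfl, rfl⟩ | ⟨rfl, rfl⟩ | ⟨rfl, rfl⟩ | ⟨rfl, rfl⟩ |
      ⟨rfl, rfl⟩
    · exact h01 ⟨⟨hk, hl, hm _ (by decide) (by decide), hm _ (by decide) (by decide)⟩, ha⟩
    · exact h02 ⟨⟨hk, hl, hm _ (by decide) (by decide), hm _ (by decide) (by decide)⟩, ha⟩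
    · exact h03 ⟨⟨hk, hl, hm _ (by decide) (by decide), hm _ (by decide) (by decide)⟩, ha⟩
    · exact h12 ⟨⟨hk, hl, hm _ (by decide) (by decide), hm _ (by decide) (by decide)⟩, ha⟩
    · exact h13 ⟨⟨hk, hl, hm _ (by decide) (by decide), hm _ (by decide) (by decide)⟩, ha⟩
    · exact h23 ⟨⟨hk, hl, hm _ (by decide) (by decide), hm _ (by decide) (by decide)⟩, ha⟩
  intro k l hne ha hk hl hm
  rcases lt_or_gt_of_ne hne with g | g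
  · exact key k l g (Or.inr ha) hk hl hm
  · exact key l k g (Or.inl ha) hl hk fun m a b => hm m b a

/-- The points which remain after removing the vertices and the sets `Wp`. -/
structure Rm (Q : Set (Fin 4 → ℝ)) (x : Fin 4 → ℝ) : Prop where
  q : x ∈ Q
  v : ∀ p, x ≠ ev p
  w : NW Q x

theorem Ctx.p23 (h : Ctx Q) {x y : Fin 4 → ℝ} (hx : Rm Q x) (hy : Rm Q y)
    (hxc : x ∈ Kp 2 3 0 1 ∪ Tp 2 3 0 1) (hyc : y ∈ Kp 2 3 0 1 ∪ Tp 2 3 0 1) : ¬ Dr Q x y := by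
  intro hD
  have a12 := h.ab0 1 2 3 (by decide) (by decide)
  have a13 := h.ab0 1 3 2 (by decide) (by decide)
  obtain ⟨p, q, hpq, _, _, f1, f2, hc⟩ := h.pairA (i := 0) (j := 1) (k := 2) (l := 3) (by decide)
    hx.q hy.q hxc hyc (hx.v 0) (hx.v 1) (hy.v 0) (hy.v 1) hD
  rcases hpq with ⟨rfl, rfl⟩ | ⟨rfl, rfl⟩
  · rcases hc with ⟨g1, g2, g3, g4⟩ | ⟨g1, g2, g3, g4⟩
    · linarith [a12 y hy.q f2 g3]
    · linarith [a13 y hy.q f2 g3]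
  · rcases hc with ⟨g1, g2, g3, g4⟩ | ⟨g1, g2, g3, g4⟩
    · linarith [a13 x hx.q f1 g1]
    · linarith [a12 x hx.q f1 g1]

theorem Ctx.iZb (h : Ctx Q) {x y : Fin 4 → ℝ} (hx : Rm Q x) (hy : Rm Q y) (hxz : x ∈ Zb)
    (hyc : y ∈ Ks 2) (hya : y ∉ Za) : ¬ Dr Q x y := by
  intro hD
  obtain ⟨⟨x0, x1⟩, hxc⟩ := hxz
  change x 0 = 1 at x0
  change x 1 = 0 at x1
  obtain ⟨p, q, r, hd, e1, e2, e3, e4, e5, e6⟩ := h.singleA hx.q hy.q hxc hyc hx.v hy.v hx.w hy.w hD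
  rcases enum2 p q r hd with ⟨rfl, rfl, rfl⟩ | ⟨rfl, rfl, rfl⟩ | ⟨rfl, rfl, rfl⟩ |
    ⟨rfl, rfl, rfl⟩ | ⟨rfl, rfl, rfl⟩ | ⟨rfl, rfl, rfl⟩
  · linarith
  · linarith
  · exact hya ⟨e3, hyc.1, e4.le, hyc.2 0 (by decide), hyc.2 1 (by decide)⟩
  · linarith [h.ab 1 3 2 0 (by decide) (by decide) (by decide) y hy.q e3 e4]
  · linarith
  · exact hx.v 0 (h.eqe (i := 0) (j := 2) (k := 1) (l := 3) (by decide) hx.q x0 x1 e2)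

theorem Ctx.iZc (h : Ctx Q) {x y : Fin 4 → ℝ} (hx : Rm Q x) (hy : Rm Q y) (hxz : x ∈ Zc)
    (hyc : y ∈ Ks 3) (hya : y ∉ Za) : ¬ Dr Q x y := by
  intro hD
  obtain ⟨⟨x2, x1⟩, hxc⟩ := hxz
  change x 2 = 1 at x2
  change x 1 = 0 at x1
  obtain ⟨p, q, r, hd, e1, e2, e3, e4, e5, e6⟩ := h.singleA hx.q hy.q hxc hyc hx.v hy.v hx.w hy.w hD
  rcases enum3 p q r hd with ⟨rfl, rfl, rfl⟩ | ⟨rfl, rfl, rfl⟩ | ⟨rfl, rfl, rfl⟩ |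
    ⟨rfl, rfl, rfl⟩ | ⟨rfl, rfl, rfl⟩ | ⟨rfl, rfl, rfl⟩
  · exact hx.v 2 (h.eqe (i := 2) (j := 3) (k := 1) (l := 0) (by decide) hx.q x2 x1 e2)
  · linarith
  · exact hya ⟨e3, e4.le, hyc.1, hyc.2 0 (by decide), hyc.2 1 (by decide)⟩
  · linarith [h.ab0 2 3 1 (by decide) (by decide) x hx.q e1 x1]
  · linarith
  · linarith

theorem Ctx.p13 (h : Ctx Q) {x y : Fin 4 → ℝ} (hx : Rm Q x) (hy : Rm Q y)
    (hxc : x ∈ Kp 1 3 0 2 ∪ Tp 1 3 0 2) (hyc : y ∈ Kp 1 3 0 2 ∪ Tp 1 3 0 2) (hxz : x ∉ Zc)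
    (hyz : y ∉ Zc) : ¬ Dr Q x y := by
  intro hD
  have a23 := h.ab0 2 3 1 (by decide) (by decide)
  obtain ⟨p, q, hpq, kx, ky, f1, f2, hc⟩ := h.pairA (i := 0) (j := 2) (k := 1) (l := 3)
    (by decide) hx.q hy.q hxc hyc (hx.v 0) (hx.v 2) (hy.v 0) (hy.v 2) hD
  have mem : ∀ z : Fin 4 → ℝ, z ∈ Kp 1 3 0 2 → z 2 = 1 → z 1 = 0 → z ∈ Zc := by
    intro z hz z2 z1
    refine ⟨⟨z2, z1⟩, hz.2.1, ?_⟩
    intro m hm
    have en : ∀ m : Fin 4, m ≠ 3 → m = 0 ∨ m = 1 ∨ m = 2 := by decide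
    rcases en m hm with rfl | rfl | rfl
    · exact hz.2.2.1
    · exact z1.ge
    · exact hz.2.2.2
  rcases hpq with ⟨rfl, rfl⟩ | ⟨rfl, rfl⟩
  · rcases hc with ⟨g1, g2, g3, g4⟩ | ⟨g1, g2, g3, g4⟩
    · exact hxz (mem x kx f1 g1)
    · linarith [a23 y hy.q f2 g3]
  · rcases hc with ⟨g1, g2, g3, g4⟩ | ⟨g1, g2, g3, g4⟩
    · linarith [a23 x hx.q f1 g1]
    · exact hyz (mem y ky f2 g3)

theorem Ctx.iZe (h : Ctx Q) {x y : Fin 4 → ℝ} (hx : Rm Q x) (hy : Rm Q y) (hxz : x ∈ Ze)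
    (hyc : y ∈ Ks 1) (hyd : y ∉ Zd) : ¬ Dr Q x y := by
  intro hD
  obtain ⟨⟨x0, x2⟩, hxc⟩ := hxz
  change x 0 = 1 at x0
  change x 2 = 0 at x2
  obtain ⟨p, q, r, hd, e1, e2, e3, e4, e5, e6⟩ := h.singleA hx.q hy.q hxc hyc hx.v hy.v hx.w hy.w hD
  rcases enum1 p q r hd with ⟨rfl, rfl, rfl⟩ | ⟨rfl, rfl, rfl⟩ | ⟨rfl, rfl, rfl⟩ |
    ⟨rfl, rfl, rfl⟩ | ⟨rfl, rfl, rfl⟩ | ⟨rfl, rfl, rfl⟩
  · linarith
  · linarith
  · exact hyd ⟨e3, hyc.1, e4.le, hyc.2 0 (by decide), hyc.2 2 (by decide)⟩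
  · linarith [h.ab 2 3 1 0 (by decide) (by decide) (by decide) y hy.q e3 e4]
  · linarith
  · exact hx.v 0 (h.eqe (i := 0) (j := 1) (k := 2) (l := 3) (by decide) hx.q x0 x2 e2)

theorem Ctx.f0 (h : Ctx Q) {x y : Fin 4 → ℝ} (hx : Rm Q x) (hy : Rm Q y) (hxc : x ∈ Ks 0)
    (hyc : y ∈ Ks 0) : ¬ Dr Q x y := by
  intro hD
  obtain ⟨p, q, r, hd, e1, e2, e3, e4, e5, e6⟩ := h.singleA hx.q hy.q hxc hyc hx.v hy.v hx.w hy.w hD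
  have perm : ∀ p q r : Fin 4, Dist4 0 p q r → Dist4 r q 0 p ∧ r ≠ 0 ∧ 0 < q := by decide
  obtain ⟨d1, d2, d3⟩ := perm p q r hd
  linarith [h.ab r q 0 p d1 d2 d3 x hx.q e1 e2]

theorem Ctx.f1 (h : Ctx Q) {x y : Fin 4 → ℝ} (hx : Rm Q x) (hy : Rm Q y) (hxc : x ∈ Ks 1)
    (hyc : y ∈ Ks 1) (hxd : x ∉ Zd) (hyd : y ∉ Zd) : ¬ Dr Q x y := by
  intro hD
  obtain ⟨p, q, r, hd, e1, e2, e3, e4, e5, e6⟩ := h.singleA hx.q hy.q hxc hyc hx.v hy.v hx.w hy.w hD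
  have a321 := h.ab 3 2 1 0 (by decide) (by decide) (by decide)
  have a231 := h.ab 2 3 1 0 (by decide) (by decide) (by decide)
  rcases enum1 p q r hd with ⟨rfl, rfl, rfl⟩ | ⟨rfl, rfl, rfl⟩ | ⟨rfl, rfl, rfl⟩ |
    ⟨rfl, rfl, rfl⟩ | ⟨rfl, rfl, rfl⟩ | ⟨rfl, rfl, rfl⟩
  · linarith [a321 x hx.q e1 e2]
  · linarith [a231 x hx.q e1 e2]
  · exact hyd ⟨e3, hyc.1, e4.le, hyc.2 0 (by decide), hyc.2 2 (by decide)⟩
  · linarith [a231 y hy.q e3 e4]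
  · exact hxd ⟨e1, hxc.1, e2.le, hxc.2 0 (by decide), hxc.2 2 (by decide)⟩
  · linarith [a321 y hy.q e3 e4]

theorem Ctx.f2 (h : Ctx Q) {x y : Fin 4 → ℝ} (hx : Rm Q x) (hy : Rm Q y) (hxc : x ∈ Ks 2)
    (hyc : y ∈ Ks 2) (hxa : x ∉ Za) (hya : y ∉ Za) : ¬ Dr Q x y := by
  intro hD
  obtain ⟨p, q, r, hd, e1, e2, e3, e4, e5, e6⟩ := h.singleA hx.q hy.q hxc hyc hx.v hy.v hx.w hy.w hD
  have a012 := h.ab0 1 2 3 (by decide) (by decide)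
  have a132 := h.ab 1 3 2 0 (by decide) (by decide) (by decide)
  rcases enum2 p q r hd with ⟨rfl, rfl, rfl⟩ | ⟨rfl, rfl, rfl⟩ | ⟨rfl, rfl, rfl⟩ |
    ⟨rfl, rfl, rfl⟩ | ⟨rfl, rfl, rfl⟩ | ⟨rfl, rfl, rfl⟩
  · linarith [a012 y hy.q e3 e4]
  · linarith [a132 x hx.q e1 e2]
  · exact hya ⟨e3, hyc.1, e4.le, hyc.2 0 (by decide), hyc.2 1 (by decide)⟩
  · linarith [a132 y hy.q e3 e4]
  · exact hxa ⟨e1, hxc.1, e2.le, hxc.2 0 (by decide), hxc.2 1 (by decide)⟩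
  · linarith [a012 x hx.q e1 e2]

theorem Ctx.f3 (h : Ctx Q) {x y : Fin 4 → ℝ} (hx : Rm Q x) (hy : Rm Q y) (hxc : x ∈ Ks 3)
    (hyc : y ∈ Ks 3) (hxa : x ∉ Za) (hya : y ∉ Za) : ¬ Dr Q x y := by
  intro hD
  obtain ⟨p, q, r, hd, e1, e2, e3, e4, e5, e6⟩ := h.singleA hx.q hy.q hxc hyc hx.v hy.v hx.w hy.w hD
  have a013 := h.ab0 1 3 2 (by decide) (by decide)
  have a023 := h.ab0 2 3 1 (by decide) (by decide)
  rcases enum3 p q r hd with ⟨rfl, rfl, rfl⟩ | ⟨rfl, rfl, rfl⟩ | ⟨rfl, rfl, rfl⟩ |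
    ⟨rfl, rfl, rfl⟩ | ⟨rfl, rfl, rfl⟩ | ⟨rfl, rfl, rfl⟩
  · linarith [a013 y hy.q e3 e4]
  · linarith [a023 y hy.q e3 e4]
  · exact hya ⟨e3, e4.le, hyc.1, hyc.2 0 (by decide), hyc.2 1 (by decide)⟩
  · linarith [a023 x hx.q e1 e2]
  · exact hxa ⟨e1, e2.le, hxc.1, hxc.2 0 (by decide), hxc.2 1 (by decide)⟩
  · linarith [a013 x hx.q e1 e2]

theorem Ctx.p01 (h : Ctx Q) {x y : Fin 4 → ℝ} (hx : Rm Q x) (hy : Rm Q y)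
    (hxc : x ∈ Kp 0 1 2 3 ∪ Tp 0 1 2 3) (hyc : y ∈ Kp 0 1 2 3 ∪ Tp 0 1 2 3) : ¬ Dr Q x y := by
  intro hD
  have a321 := h.ab 3 2 1 0 (by decide) (by decide) (by decide)
  have a320 := h.ab 3 2 0 1 (by decide) (by decide) (by decide)
  obtain ⟨p, q, hpq, kx, ky, f1, f2, hc⟩ := h.pairA (i := 2) (j := 3) (k := 0) (l := 1)
    (by decide) hx.q hy.q hxc hyc (hx.v 2) (hx.v 3) (hy.v 2) (hy.v 3) hD
  rcases hpq with ⟨rfl, rfl⟩ | ⟨rfl, rfl⟩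
  · rcases hc with ⟨g1, g2, g3, g4⟩ | ⟨g1, g2, g3, g4⟩
    · linarith [a321 x hx.q f1 g1]
    · linarith [a320 x hx.q f1 g1]
  · rcases hc with ⟨g1, g2, g3, g4⟩ | ⟨g1, g2, g3, g4⟩
    · linarith [a320 y hy.q f2 g3]
    · linarith [a321 y hy.q f2 g3]

theorem Ctx.p02 (h : Ctx Q) {x y : Fin 4 → ℝ} (hx : Rm Q x) (hy : Rm Q y)
    (hxc : x ∈ Kp 0 2 1 3 ∪ Tp 0 2 1 3) (hyc : y ∈ Kp 0 2 1 3 ∪ Tp 0 2 1 3) : ¬ Dr Q x y := by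
  intro hD
  have a130 := h.ab 1 3 0 2 (by decide) (by decide) (by decide)
  have a132 := h.ab 1 3 2 0 (by decide) (by decide) (by decide)
  obtain ⟨p, q, hpq, kx, ky, f1, f2, hc⟩ := h.pairA (i := 1) (j := 3) (k := 0) (l := 2)
    (by decide) hx.q hy.q hxc hyc (hx.v 1) (hx.v 3) (hy.v 1) (hy.v 3) hD
  rcases hpq with ⟨rfl, rfl⟩ | ⟨rfl, rfl⟩
  · rcases hc with ⟨g1, g2, g3, g4⟩ | ⟨g1, g2, g3, g4⟩
    · linarith [a130 y hy.q f2 g3]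
    · linarith [a132 y hy.q f2 g3]
  · rcases hc with ⟨g1, g2, g3, g4⟩ | ⟨g1, g2, g3, g4⟩
    · linarith [a132 x hx.q f1 g1]
    · linarith [a130 x hx.q f1 g1]

theorem Ctx.p03 (h : Ctx Q) {x y : Fin 4 → ℝ} (hx : Rm Q x) (hy : Rm Q y)
    (hxc : x ∈ Kp 0 3 1 2 ∪ Tp 0 3 1 2) (hyc : y ∈ Kp 0 3 1 2 ∪ Tp 0 3 1 2) : ¬ Dr Q x y := by
  intro hD
  have a120 := h.ab 1 2 0 3 (by decide) (by decide) (by decide)
  have a210 := h.ab 2 1 0 3 (by decide) (by decide) (by decide)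
  obtain ⟨p, q, hpq, kx, ky, f1, f2, hc⟩ := h.pairA (i := 1) (j := 2) (k := 0) (l := 3)
    (by decide) hx.q hy.q hxc hyc (hx.v 1) (hx.v 2) (hy.v 1) (hy.v 2) hD
  rcases hpq with ⟨rfl, rfl⟩ | ⟨rfl, rfl⟩
  · rcases hc with ⟨g1, g2, g3, g4⟩ | ⟨g1, g2, g3, g4⟩
    · linarith [a120 y hy.q f2 g3]
    · linarith [a210 x hx.q f1 g1]
  · rcases hc with ⟨g1, g2, g3, g4⟩ | ⟨g1, g2, g3, g4⟩
    · linarith [a210 y hy.q f2 g3]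
    · linarith [a120 x hx.q f1 g1]

theorem Ctx.p12 (h : Ctx Q) {x y : Fin 4 → ℝ} (hx : Rm Q x) (hy : Rm Q y)
    (hxc : x ∈ Kp 1 2 0 3 ∪ Tp 1 2 0 3) (hyc : y ∈ Kp 1 2 0 3 ∪ Tp 1 2 0 3) (hxb : x ∉ Zb)
    (hyb : y ∉ Zb) (hxe : x ∉ Ze) (hye : y ∉ Ze) : ¬ Dr Q x y := by
  intro hD
  obtain ⟨p, q, hpq, kx, ky, f1, f2, hc⟩ := h.pairA (i := 0) (j := 3) (k := 1) (l := 2)
    (by decide) hx.q hy.q hxc hyc (hx.v 0) (hx.v 3) (hy.v 0) (hy.v 3) hD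
  have memb : ∀ z : Fin 4 → ℝ, z ∈ Kp 1 2 0 3 → z 0 = 1 → z 1 = 0 → z ∈ Zb := by
    intro z hz z0 z1
    refine ⟨⟨z0, z1⟩, hz.2.1, ?_⟩
    intro m hm
    have en : ∀ m : Fin 4, m ≠ 2 → m = 0 ∨ m = 1 ∨ m = 3 := by decide
    rcases en m hm with rfl | rfl | rfl
    · exact hz.2.2.1
    · exact z1.ge
    · exact hz.2.2.2
  have meme : ∀ z : Fin 4 → ℝ, z ∈ Kp 1 2 0 3 → z 0 = 1 → z 2 = 0 → z ∈ Ze := by
    intro z hz z0 z2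
    refine ⟨⟨z0, z2⟩, hz.1, ?_⟩
    intro m hm
    have en : ∀ m : Fin 4, m ≠ 1 → m = 0 ∨ m = 2 ∨ m = 3 := by decide
    rcases en m hm with rfl | rfl | rfl
    · exact hz.2.2.1
    · exact z2.ge
    · exact hz.2.2.2
  rcases hpq with ⟨rfl, rfl⟩ | ⟨rfl, rfl⟩
  · rcases hc with ⟨g1, g2, g3, g4⟩ | ⟨g1, g2, g3, g4⟩
    · exact hye (meme y ky f2 g3)
    · exact hyb (memb y ky f2 g3)
  · rcases hc with ⟨g1, g2, g3, g4⟩ | ⟨g1, g2, g3, g4⟩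
    · exact hxb (memb x kx f1 g1)
    · exact hxe (meme x kx f1 g1)

end Pool.Agent.H60.SW
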