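import Pool.Agent.H60.SW.Core2

/-!
# The eleven classes: the core theorem in barycentric coordinates
-/

set_option autoImplicit false

namespace Pool.Agent.H60.SW

open Set

variable {Q : Set (Fin 4 → ℝ)}

theorem ev_mem_Kp {i j k l : Fin 4} (hd : Dist4 i j k l) : ev j ∈ Kp k l i j ∪ Tp k l i j := by
  obtain ⟨d1, d2, d3, d4, d5, d6⟩ := id hd
  refine Or.inl ⟨?_, ?_, ?_, ?_⟩
  · rw [ev, Pi.single_eq_of_ne d4.symm]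
  · rw [ev, Pi.single_eq_of_ne d5.symm]
  · rw [ev, Pi.single_eq_of_ne d1]
  · rw [ev, Pi.single_eq_same]
    norm_num

theorem Ctx.good (h : Ctx Q) : Good (Dr Q) (CC Q) Q (LL Q) := by
  classical
  -- membership facts
  refine ⟨?_, ?_, ?_, ?_, ?_, ?_, ?_, ?_, ?_, ?_, ?_, ?_, ?_, ?_, ?_, ?_⟩
  · -- ev 0
    intro x hx hxR
    rw [mem_singleton_iff] at hx
    subst hx
    refine ⟨rfl, fun y hy _ => ?_⟩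
    have : y = ev 0 := hy
    rw [this]
    exact not_Dr_self _
  · -- ev 1
    rintro x hx ⟨hxQ, -⟩
    rw [mem_singleton_iff] at hx
    subst hx
    by_cases hA : Al Q 0
    · simp only [CC, if_pos hA]
      refine ⟨rfl, fun y hy _ => ?_⟩
      rw [mem_singleton_iff.mp hy]
      exact not_Dr_self _
    · simp only [CC, if_neg hA]
      refine ⟨ev_mem_Kp (by decide), ?_⟩
      rintro y hy ⟨hyQ, hy0⟩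
      exact h.it1 hxQ hyQ hy0 hA hy
  · -- ev 3
    rintro x hx ⟨⟨hxQ, -⟩, -⟩
    rw [mem_singleton_iff] at hx
    subst hx
    by_cases hA : Al Q 1
    · simp only [CC, if_pos hA]
      refine ⟨rfl, fun y hy _ => ?_⟩
      rw [mem_singleton_iff.mp hy]
      exact not_Dr_self _
    · simp only [CC, if_neg hA]
      refine ⟨ev_mem_Kp (by decide), ?_⟩
      rintro y hy ⟨⟨hyQ, hy0⟩, hy1⟩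
      exact h.it3 hxQ hyQ hy1 hA hy
  · -- ev 2
    rintro x hx ⟨⟨⟨hxQ, -⟩, -⟩, -⟩
    rw [mem_singleton_iff] at hx
    subst hx
    by_cases hA : Al Q 3
    · simp only [CC, if_pos hA]
      refine ⟨rfl, fun y hy _ => ?_⟩
      rw [mem_singleton_iff.mp hy]
      exact not_Dr_self _
    · simp only [CC, if_neg hA]
      refine ⟨?_, ?_⟩
      · rw [Kp_comm 0 1 2 3, Tp_comm 0 1 2 3]
        exact ev_mem_Kp (by decide)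
      · rintro y hy ⟨⟨⟨hyQ, hy0⟩, hy1⟩, hy3⟩
        exact h.it2 hxQ hyQ hy3 hA hy
  all_goals
    have nv : ∀ x : Fin 4 → ℝ, x ∉ ({ev 0} : Set (Fin 4 → ℝ)) → x ∉ ({ev 1} : Set (Fin 4 → ℝ)) →
        x ∉ ({ev 3} : Set (Fin 4 → ℝ)) → x ∉ ({ev 2} : Set (Fin 4 → ℝ)) → ∀ p, x ≠ ev p := by
      intro x h0 h1 h3 h2 p e
      fin_cases p
      exacts [h0 e, h1 e, h2 e, h3 e]
  · rintro x hx ⟨⟨⟨⟨hxQ, a0⟩, a1⟩, a3⟩, a2⟩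
    refine ⟨Or.inl hx.1, ?_⟩
    rintro y hy ⟨⟨⟨⟨hyQ, b0⟩, b1⟩, b3⟩, b2⟩
    exact h.itW (by decide) hxQ hyQ (nv x a0 a1 a3 a2) (nv y b0 b1 b3 b2) hx hy
  · rintro x hx ⟨⟨⟨⟨⟨hxQ, a0⟩, a1⟩, a3⟩, a2⟩, -⟩
    refine ⟨Or.inl hx.1, ?_⟩
    rintro y hy ⟨⟨⟨⟨⟨hyQ, b0⟩, b1⟩, b3⟩, b2⟩, -⟩
    exact h.itW (by decide) hxQ hyQ (nv x a0 a1 a3 a2) (nv y b0 b1 b3 b2) hx hy
  · rintro x hx ⟨⟨⟨⟨⟨⟨hxQ, a0⟩, a1⟩, a3⟩, a2⟩, -⟩, -⟩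
    refine ⟨Or.inl hx.1, ?_⟩
    rintro y hy ⟨⟨⟨⟨⟨⟨hyQ, b0⟩, b1⟩, b3⟩, b2⟩, -⟩, -⟩
    exact h.itW (by decide) hxQ hyQ (nv x a0 a1 a3 a2) (nv y b0 b1 b3 b2) hx hy
  · rintro x hx ⟨⟨⟨⟨⟨⟨⟨hxQ, a0⟩, a1⟩, a3⟩, a2⟩, -⟩, -⟩, -⟩
    refine ⟨Or.inl hx.1, ?_⟩
    rintro y hy ⟨⟨⟨⟨⟨⟨⟨hyQ, b0⟩, b1⟩, b3⟩, b2⟩, -⟩, -⟩, -⟩
    exact h.itW (by decide) hxQ hyQ (nv x a0 a1 a3 a2) (nv y b0 b1 b3 b2) hx hy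
  · rintro x hx ⟨⟨⟨⟨⟨⟨⟨⟨hxQ, a0⟩, a1⟩, a3⟩, a2⟩, -⟩, -⟩, -⟩, -⟩
    refine ⟨Or.inl hx.1, ?_⟩
    rintro y hy ⟨⟨⟨⟨⟨⟨⟨⟨hyQ, b0⟩, b1⟩, b3⟩, b2⟩, -⟩, -⟩, -⟩, -⟩
    exact h.itW (by decide) hxQ hyQ (nv x a0 a1 a3 a2) (nv y b0 b1 b3 b2) hx hy
  · rintro x hx ⟨⟨⟨⟨⟨⟨⟨⟨⟨hxQ, a0⟩, a1⟩, a3⟩, a2⟩, -⟩, -⟩, -⟩, -⟩, -⟩
    refine ⟨Or.inl hx.1, ?_⟩
    rintro y hy ⟨⟨⟨⟨⟨⟨⟨⟨⟨hyQ, b0⟩, b1⟩, b3⟩, b2⟩, -⟩, -⟩, -⟩, -⟩, -⟩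
    exact h.itW (by decide) hxQ hyQ (nv x a0 a1 a3 a2) (nv y b0 b1 b3 b2) hx hy
  · -- Za
    rintro x hx ⟨⟨⟨⟨⟨⟨⟨⟨⟨⟨hxQ, a0⟩, a1⟩, a3⟩, a2⟩, w1⟩, w2⟩, w3⟩, w4⟩, w5⟩, w6⟩
    have rx : Rm Q x := ⟨hxQ, nv x a0 a1 a3 a2, NW_of w1 w2 w3 w4 w5 w6⟩
    refine ⟨Or.inl hx.2, ?_⟩
    rintro y hy ⟨⟨⟨⟨⟨⟨⟨⟨⟨⟨hyQ, b0⟩, b1⟩, b3⟩, b2⟩, v1⟩, v2⟩, v3⟩, v4⟩, v5⟩, v6⟩
    have ry : Rm Q y := ⟨hyQ, nv y b0 b1 b3 b2, NW_of v1 v2 v3 v4 v5 v6⟩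
    exact h.p23 rx ry (Or.inl hx.2) hy
  · -- Zb
    rintro x hx ⟨⟨⟨⟨⟨⟨⟨⟨⟨⟨⟨hxQ, a0⟩, a1⟩, a3⟩, a2⟩, w1⟩, w2⟩, w3⟩, w4⟩, w5⟩, w6⟩, xa⟩
    have rx : Rm Q x := ⟨hxQ, nv x a0 a1 a3 a2, NW_of w1 w2 w3 w4 w5 w6⟩
    have hA : ¬ Al Q 2 := by
      intro hA
      exact rx.v 0 (h.eqe (i := 0) (j := 3) (k := 1) (l := 2) (by decide) hxQ hx.1.1 hx.1.2
        (le_antisymm hx.2.1 (hA x hxQ)))
    simp only [CC, if_neg hA]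
    refine ⟨hx.2, ?_⟩
    rintro y hy ⟨⟨⟨⟨⟨⟨⟨⟨⟨⟨⟨hyQ, b0⟩, b1⟩, b3⟩, b2⟩, v1⟩, v2⟩, v3⟩, v4⟩, v5⟩, v6⟩, ya⟩
    have ry : Rm Q y := ⟨hyQ, nv y b0 b1 b3 b2, NW_of v1 v2 v3 v4 v5 v6⟩
    exact h.iZb rx ry hx hy ya
  · -- Zc
    rintro x hx ⟨⟨⟨⟨⟨⟨⟨⟨⟨⟨⟨⟨hxQ, a0⟩, a1⟩, a3⟩, a2⟩, w1⟩, w2⟩, w3⟩, w4⟩, w5⟩, w6⟩, xa⟩, xb⟩
    have rx : Rm Q x := ⟨hxQ, nv x a0 a1 a3 a2, NW_of w1 w2 w3 w4 w5 w6⟩
    have hA : ¬ Al Q 3 := by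
      intro hA
      exact rx.v 2 (h.eqe (i := 2) (j := 0) (k := 1) (l := 3) (by decide) hxQ hx.1.1 hx.1.2
        (le_antisymm hx.2.1 (hA x hxQ)))
    simp only [CC, if_neg hA]
    refine ⟨hx.2, ?_⟩
    rintro y hy ⟨⟨⟨⟨⟨⟨⟨⟨⟨⟨⟨⟨hyQ, b0⟩, b1⟩, b3⟩, b2⟩, v1⟩, v2⟩, v3⟩, v4⟩, v5⟩, v6⟩, ya⟩, yb⟩
    have ry : Rm Q y := ⟨hyQ, nv y b0 b1 b3 b2, NW_of v1 v2 v3 v4 v5 v6⟩
    exact h.iZc rx ry hx hy ya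
  · -- Zd
    rintro x hx ⟨⟨⟨⟨⟨⟨⟨⟨⟨⟨⟨⟨⟨hxQ, a0⟩, a1⟩, a3⟩, a2⟩, w1⟩, w2⟩, w3⟩, w4⟩, w5⟩, w6⟩, xa⟩, xb⟩, xc⟩
    have rx : Rm Q x := ⟨hxQ, nv x a0 a1 a3 a2, NW_of w1 w2 w3 w4 w5 w6⟩
    refine ⟨Or.inl hx.2, ?_⟩
    rintro y hy ⟨⟨⟨⟨⟨⟨⟨⟨⟨⟨⟨⟨⟨hyQ, b0⟩, b1⟩, b3⟩, b2⟩, v1⟩, v2⟩, v3⟩, v4⟩, v5⟩, v6⟩, ya⟩, yb⟩, yc⟩
    have ry : Rm Q y := ⟨hyQ, nv y b0 b1 b3 b2, NW_of v1 v2 v3 v4 v5 v6⟩
    exact h.p13 rx ry (Or.inl hx.2) hy xc yc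
  · -- Ze
    rintro x hx ⟨⟨⟨⟨⟨⟨⟨⟨⟨⟨⟨⟨⟨⟨hxQ, a0⟩, a1⟩, a3⟩, a2⟩, w1⟩, w2⟩, w3⟩, w4⟩, w5⟩, w6⟩, xa⟩, xb⟩, xc⟩,
      xd⟩
    have rx : Rm Q x := ⟨hxQ, nv x a0 a1 a3 a2, NW_of w1 w2 w3 w4 w5 w6⟩
    have hA : ¬ Al Q 1 := by
      intro hA
      exact rx.v 0 (h.eqe (i := 0) (j := 3) (k := 2) (l := 1) (by decide) hxQ hx.1.1 hx.1.2
        (le_antisymm hx.2.1 (hA x hxQ)))
    simp only [CC, if_neg hA]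
    refine ⟨hx.2, ?_⟩
    rintro y hy ⟨⟨⟨⟨⟨⟨⟨⟨⟨⟨⟨⟨⟨⟨hyQ, b0⟩, b1⟩, b3⟩, b2⟩, v1⟩, v2⟩, v3⟩, v4⟩, v5⟩, v6⟩, ya⟩, yb⟩, yc⟩,
      yd⟩
    have ry : Rm Q y := ⟨hyQ, nv y b0 b1 b3 b2, NW_of v1 v2 v3 v4 v5 v6⟩
    exact h.iZe rx ry hx hy yd
  · -- the rest
    rintro c x hxc ⟨⟨⟨⟨⟨⟨⟨⟨⟨⟨⟨⟨⟨⟨⟨hxQ, a0⟩, a1⟩, a3⟩, a2⟩, w1⟩, w2⟩, w3⟩, w4⟩, w5⟩, w6⟩, xa⟩,
      xb⟩, xc⟩, xd⟩, xe⟩ y hyc ⟨⟨⟨⟨⟨⟨⟨⟨⟨⟨⟨⟨⟨⟨⟨hyQ, b0⟩, b1⟩, b3⟩, b2⟩, v1⟩, v2⟩, v3⟩, v4⟩, v5⟩,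
      v6⟩, ya⟩, yb⟩, yc⟩, yd⟩, ye⟩
    have rx : Rm Q x := ⟨hxQ, nv x a0 a1 a3 a2, NW_of w1 w2 w3 w4 w5 w6⟩
    have ry : Rm Q y := ⟨hyQ, nv y b0 b1 b3 b2, NW_of v1 v2 v3 v4 v5 v6⟩
    cases c
    · exact absurd hxc (rx.v 0)
    · by_cases hA : Al Q 0
      · simp only [CC, if_pos hA] at hxc
        exact absurd hxc (rx.v 1)
      · simp only [CC, if_neg hA] at hxc hyc
        exact h.f0 rx ry hxc hyc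
    · by_cases hA : Al Q 1
      · simp only [CC, if_pos hA] at hxc
        exact absurd hxc (rx.v 3)
      · simp only [CC, if_neg hA] at hxc hyc
        exact h.f1 rx ry hxc hyc xd yd
    · by_cases hA : Al Q 2
      · simp only [CC, if_pos hA] at hxc
        exact absurd hxc (notMem_empty x)
      · simp only [CC, if_neg hA] at hxc hyc
        exact h.f2 rx ry hxc hyc xa ya
    · by_cases hA : Al Q 3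
      · simp only [CC, if_pos hA] at hxc
        exact absurd hxc (rx.v 2)
      · simp only [CC, if_neg hA] at hxc hyc
        exact h.f3 rx ry hxc hyc xa ya
    · exact h.p01 rx ry hxc hyc
    · exact h.p02 rx ry hxc hyc
    · exact h.p03 rx ry hxc hyc
    · exact h.p12 rx ry hxc hyc xb yb xe ye
    · exact h.p13 rx ry hxc hyc xc yc
    · exact h.p23 rx ry hxc hyc

theorem mem_pair {x : Fin 4 → ℝ} {k l : Fin 4} (hkl : k ≠ l)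
    (hx : (x k ≤ 0 ∧ x l ≤ 0 ∧ ∀ m, m ≠ k → m ≠ l → 0 ≤ x m) ∨
      (0 ≤ x k ∧ 0 ≤ x l ∧ ∀ m, m ≠ k → m ≠ l → x k ≤ x m ∧ x l ≤ x m)) :
    x ∈ ⋃ c, CC Q c := by
  have key : ∀ k l : Fin 4, k < l → ((x k ≤ 0 ∧ x l ≤ 0 ∧ ∀ m, m ≠ k → m ≠ l → 0 ≤ x m) ∨
      (0 ≤ x k ∧ 0 ≤ x l ∧ ∀ m, m ≠ k → m ≠ l → x k ≤ x m ∧ x l ≤ x m)) →
      ∀ i j : Fin 4, i ≠ k → i ≠ l → j ≠ k → j ≠ l → x ∈ Kp k l i j ∪ Tp k l i j := by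
    intro k l _ hx i j h1 h2 h3 h4
    rcases hx with ⟨a, b, c⟩ | ⟨a, b, c⟩
    · exact Or.inl ⟨a, b, c i h1 h2, c j h3 h4⟩
    · exact Or.inr ⟨a, b, (c i h1 h2).1, (c i h1 h2).2, (c j h3 h4).1, (c j h3 h4).2⟩
  have key2 : ∀ k l : Fin 4, k < l → ((x k ≤ 0 ∧ x l ≤ 0 ∧ ∀ m, m ≠ k → m ≠ l → 0 ≤ x m) ∨
      (0 ≤ x k ∧ 0 ≤ x l ∧ ∀ m, m ≠ k → m ≠ l → x k ≤ x m ∧ x l ≤ x m)) →
      x ∈ ⋃ c, CC Q c := by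
    intro k l hkl hx
    have kk := key k l hkl hx
    have en : ∀ k l : Fin 4, k < l → (k = 0 ∧ l = 1) ∨ (k = 0 ∧ l = 2) ∨ (k = 0 ∧ l = 3) ∨
        (k = 1 ∧ l = 2) ∨ (k = 1 ∧ l = 3) ∨ (k = 2 ∧ l = 3) := by decide
    rcases en k l hkl with ⟨rfl, rfl⟩ | ⟨rfl, rfl⟩ | ⟨rfl, rfl⟩ | ⟨rfl, rfl⟩ | ⟨rfl, rfl⟩ |
      ⟨rfl, rfl⟩
    · exact mem_iUnion.mpr ⟨.p01, kk 2 3 (by decide) (by decide) (by decide) (by decide)⟩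
    · exact mem_iUnion.mpr ⟨.p02, kk 1 3 (by decide) (by decide) (by decide) (by decide)⟩
    · exact mem_iUnion.mpr ⟨.p03, kk 1 2 (by decide) (by decide) (by decide) (by decide)⟩
    · exact mem_iUnion.mpr ⟨.p12, kk 0 3 (by decide) (by decide) (by decide) (by decide)⟩
    · exact mem_iUnion.mpr ⟨.p13, kk 0 2 (by decide) (by decide) (by decide) (by decide)⟩
    · exact mem_iUnion.mpr ⟨.p23, kk 0 1 (by decide) (by decide) (by decide) (by decide)⟩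
  rcases lt_or_gt_of_ne hkl with g | g
  · exact key2 k l g hx
  · apply key2 l k g
    rcases hx with ⟨a, b, c⟩ | ⟨a, b, c⟩
    · exact Or.inl ⟨b, a, fun m h1 h2 => c m h2 h1⟩
    · exact Or.inr ⟨b, a, fun m h1 h2 => (c m h2 h1).symm⟩

theorem Ctx.cover (h : Ctx Q) : Q ⊆ ⋃ c, CC Q c := by
  classical
  intro x hx
  have hs := h.sum x hx
  have h1 := h.le1 x hx
  by_cases h2 : ∃ k l : Fin 4, k ≠ l ∧ x k < 0 ∧ x l < 0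
  · obtain ⟨k, l, hkl, hk, hl⟩ := h2
    have en : ∀ k l m : Fin 4, k ≠ l → m ≠ k → m ≠ l → ∃ n, Dist4 k l m n := by decide
    refine mem_pair hkl (Or.inl ⟨hk.le, hl.le, fun m hm hm' => ?_⟩)
    obtain ⟨n, hd⟩ := en k l m hkl hm hm'
    rw [hd.sum] at hs
    linarith [h1 n]
  · push Not at h2
    by_cases h3 : ∃ k, x k < 0
    · obtain ⟨k, hk⟩ := h3
      have hks : x ∈ Ks k := ⟨hk.le, fun i hi => h2 k i hi.symm hk⟩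
      have hA : ¬ Al Q k := fun hA => absurd (hA x hx) (not_le.mpr hk)
      have en : ∀ k : Fin 4, k = 0 ∨ k = 1 ∨ k = 2 ∨ k = 3 := by decide
      rcases en k with rfl | rfl | rfl | rfl
      · refine mem_iUnion.mpr ⟨.s0, ?_⟩
        simp only [CC, if_neg hA]
        exact hks
      · refine mem_iUnion.mpr ⟨.s1, ?_⟩
        simp only [CC, if_neg hA]
        exact hks
      · refine mem_iUnion.mpr ⟨.s2, ?_⟩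
        simp only [CC, if_neg hA]
        exact hks
      · refine mem_iUnion.mpr ⟨.s3, ?_⟩
        simp only [CC, if_neg hA]
        exact hks
    · push Not at h3
      obtain ⟨i, hi⟩ := Finite.exists_max x
      obtain ⟨p, q, r, hd, hpq, hqr⟩ := exists_order x i
      obtain ⟨d1, d2, d3, d4, d5, d6⟩ := id hd
      refine mem_pair d4 (Or.inr ⟨h3 p, h3 q, fun m hm hm' => ?_⟩)
      rcases hd.cases m with rfl | rfl | rfl | rfl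
      · exact ⟨hi p, hi q⟩
      · exact absurd rfl hm
      · exact absurd rfl hm'
      · exact ⟨hpq.trans hqr, hqr⟩

/-- Antipodality is a closed relation. -/
theorem isClosed_Dr (hQ : IsCompact Q) :
    IsClosed {p : (Fin 4 → ℝ) × (Fin 4 → ℝ) | p.1 ∈ Q ∧ p.2 ∈ Q ∧ Dr Q p.1 p.2} := by
  have hU : IsCompact (Set.pi Set.univ fun _ : Fin 4 => Set.Icc (0 : ℝ) 1) :=
    isCompact_univ_pi fun _ => isCompact_Icc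
  set T : Set ((Fin 4 → ℝ) × ((Fin 4 → ℝ) × (Fin 4 → ℝ))) :=
    ((Set.pi Set.univ fun _ : Fin 4 => Set.Icc (0 : ℝ) 1) ×ˢ (Q ×ˢ Q)) ∩
      ({a | ∀ z ∈ Q, 0 ≤ ∑ i, z i * a.1 i ∧ ∑ i, z i * a.1 i ≤ 1} ∩
      ({a | ∑ i, a.2.1 i * a.1 i = 1} ∩ {a | ∑ i, a.2.2 i * a.1 i = 0})) with hT
  have c1 : ∀ z : Fin 4 → ℝ, Continuous fun a : (Fin 4 → ℝ) × ((Fin 4 → ℝ) × (Fin 4 → ℝ)) =>
      ∑ i, z i * a.1 i := fun z => by fun_prop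
  have c2 : Continuous fun a : (Fin 4 → ℝ) × ((Fin 4 → ℝ) × (Fin 4 → ℝ)) =>
      ∑ i, a.2.1 i * a.1 i := by fun_prop
  have c3 : Continuous fun a : (Fin 4 → ℝ) × ((Fin 4 → ℝ) × (Fin 4 → ℝ)) =>
      ∑ i, a.2.2 i * a.1 i := by fun_prop
  have hTc : IsCompact T := by
    apply (hU.prod (hQ.prod hQ)).inter_right
    refine IsClosed.inter ?_ ((isClosed_eq c2 continuous_const).inter
      (isClosed_eq c3 continuous_const))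
    have : {a : (Fin 4 → ℝ) × ((Fin 4 → ℝ) × (Fin 4 → ℝ)) |
        ∀ z ∈ Q, 0 ≤ ∑ i, z i * a.1 i ∧ ∑ i, z i * a.1 i ≤ 1} =
        ⋂ z ∈ Q, ({a | 0 ≤ ∑ i, z i * a.1 i} ∩ {a | ∑ i, z i * a.1 i ≤ 1}) := by
      ext a
      simp
    rw [this]
    exact isClosed_biInter fun z _ => (isClosed_le continuous_const (c1 z)).inter
      (isClosed_le (c1 z) continuous_const)
  have himg : {p : (Fin 4 → ℝ) × (Fin 4 → ℝ) | p.1 ∈ Q ∧ p.2 ∈ Q ∧ Dr Q p.1 p.2} =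
      Prod.snd '' T := by
    ext ⟨x, y⟩
    constructor
    · rintro ⟨hx, hy, u, hu, hz, e1, e0⟩
      refine ⟨(u, (x, y)), ⟨⟨fun i _ => ⟨(hu i).1, (hu i).2⟩, hx, hy⟩, hz, e1, e0⟩, rfl⟩
    · rintro ⟨⟨u, x', y'⟩, ⟨⟨hu, hx, hy⟩, hz, e1, e0⟩, he⟩
      cases he
      exact ⟨hx, hy, u, fun i => ⟨(hu i (Set.mem_univ i)).1, (hu i (Set.mem_univ i)).2⟩, hz, e1,
        e0⟩
  rw [himg]
  exact (hTc.image continuous_snd).isClosed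

/-- The core theorem: a cover by eleven compact sets without antipodal pairs. -/
theorem core (h : Ctx Q) : ∃ G : Fin 11 → Set (Fin 4 → ℝ), (∀ c, IsCompact (G c)) ∧
    (∀ c, G c ⊆ Q) ∧ (Q ⊆ ⋃ c, G c) ∧ ∀ c, ∀ x ∈ G c, ∀ y ∈ G c, ¬ Dr Q x y := by
  obtain ⟨G, g1, g2, -, g4, g5⟩ := greedy (ι := Cl) h.cpt
    (fun x hx y hy hD => hD.symm h.sum hx hy) (isClosed_Dr h.cpt) (isClosed_CC (Q := Q)) (LL Q)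
    isClosed_LL Q h.cpt subset_rfl h.cover (fun _ => ∅) (fun _ => isCompact_empty)
    (fun _ => empty_subset _) (fun _ x hx => absurd hx (notMem_empty x)) h.good
  set f : Fin 11 → Cl := ![.own, .s0, .s1, .s2, .s3, .p01, .p02, .p03, .p12, .p13, .p23] with hf
  have hsurj : Function.Surjective f := by
    intro c
    cases c
    exacts [⟨0, rfl⟩, ⟨1, rfl⟩, ⟨2, rfl⟩, ⟨3, rfl⟩, ⟨4, rfl⟩, ⟨5, rfl⟩, ⟨6, rfl⟩, ⟨7, rfl⟩,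
      ⟨8, rfl⟩, ⟨9, rfl⟩, ⟨10, rfl⟩]
  refine ⟨fun i => G (f i), fun i => g1 _, fun i => g2 _, ?_, fun i => g5 _⟩
  intro x hx
  obtain ⟨c, hc⟩ := mem_iUnion.mp (g4 hx)
  obtain ⟨i, rfl⟩ := hsurj c
  exact mem_iUnion.mpr ⟨i, hc⟩

end Pool.Agent.H60.SW
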