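import Mathlib

/-!
# Antipodal pairs in barycentric coordinates: the real inequalities
-/

set_option autoImplicit false

namespace Pool.Agent.H60.SW

/-- One negative coordinate, ordered version. -/
theorem k1_ord {l0 l1 l2 l3 m0 m1 m2 m3 u0 u1 u2 u3 : ℝ} (hl0 : l0 ≤ 0) (hl1 : 0 ≤ l1)
    (hl2 : 0 ≤ l2) (hl3 : l3 ≤ 1) (hl : l0 + l1 + l2 + l3 = 1) (hm0 : m0 ≤ 0) (hm1 : m1 ≤ 1)
    (hm2 : 0 ≤ m2) (hm3 : 0 ≤ m3) (hm : m0 + m1 + m2 + m3 = 1) (hu0 : 0 ≤ u0) (hu0' : u0 ≤ 1)
    (hu1 : 0 ≤ u1) (h12 : u1 ≤ u2) (h23 : u2 ≤ u3) (hu3 : u3 ≤ 1)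
    (hx : l0 * u0 + l1 * u1 + l2 * u2 + l3 * u3 = 1)
    (hy : m0 * u0 + m1 * u1 + m2 * u2 + m3 * u3 = 0) :
    (m0 = 0 ∧ m1 = 1 ∧ m2 = 0 ∧ m3 = 0) ∨ (l0 = 0 ∧ l1 = 0 ∧ l2 = 0 ∧ l3 = 1) ∨
      (l3 = 1 ∧ l1 = 0 ∧ m1 = 1 ∧ m3 = 0) ∨
      (u0 = 0 ∧ u1 = 0 ∧ u2 = 0 ∧ u3 = 1 ∧ m3 = 0) ∨
      (u0 = 1 ∧ u1 = 0 ∧ u2 = 1 ∧ u3 = 1 ∧ l1 = 0) := by
  have I1 : -l0 * (u2 - u0) = (1 - u3) + l1 * (u2 - u1) + (1 - l3) * (u3 - u2) := by
    linear_combination hx - u2 * hl
  have I2 : -m0 * (u0 - u2) = u1 + m3 * (u3 - u2) + (1 - m1) * (u2 - u1) := by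
    linear_combination -hy + u2 * hm
  have a1 : 0 ≤ l1 * (u2 - u1) := mul_nonneg hl1 (by linarith)
  have a2 : 0 ≤ (1 - l3) * (u3 - u2) := mul_nonneg (by linarith) (by linarith)
  have b1 : 0 ≤ m3 * (u3 - u2) := mul_nonneg hm3 (by linarith)
  have b2 : 0 ≤ (1 - m1) * (u2 - u1) := mul_nonneg (by linarith) (by linarith)
  rcases lt_trichotomy u2 u0 with h | h | h
  · -- x is a vertex
    have c1 : -l0 * (u2 - u0) ≤ 0 := by nlinarith
    have e1 : -l0 * (u2 - u0) = 0 := by linarith
    have e2 : 1 - u3 = 0 := by linarith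
    have e3 : (1 - l3) * (u3 - u2) = 0 := by linarith
    have f1 : l0 = 0 := by
      rcases mul_eq_zero.mp e1 with g | g
      · linarith
      · linarith
    have f2 : l3 = 1 := by
      rcases mul_eq_zero.mp e3 with g | g
      · linarith
      · linarith
    right; left
    refine ⟨f1, by linarith, by linarith, f2⟩
  · -- equality
    have z1 : -l0 * (u2 - u0) = 0 := by rw [h]; ring
    have z2 : -m0 * (u0 - u2) = 0 := by rw [h]; ring
    have e3 : u3 = 1 := by linarith
    have e1 : u1 = 0 := by linarith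
    have g1 : l1 * (u2 - u1) = 0 := by linarith
    have g2 : (1 - l3) * (u3 - u2) = 0 := by linarith
    have g3 : m3 * (u3 - u2) = 0 := by linarith
    have g4 : (1 - m1) * (u2 - u1) = 0 := by linarith
    rcases mul_eq_zero.mp g1 with k1 | k1
    · rcases mul_eq_zero.mp g3 with k3 | k3
      · rcases mul_eq_zero.mp g2 with k2 | k2
        · rcases mul_eq_zero.mp g4 with k4 | k4
          · right; right; left
            exact ⟨by linarith, k1, by linarith, k3⟩
          · right; right; right; left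
            exact ⟨by linarith, e1, by linarith, e3, k3⟩
        · right; right; right; right
          exact ⟨by linarith, e1, by linarith, e3, k1⟩
      · right; right; right; right
        exact ⟨by linarith, e1, by linarith, e3, k1⟩
    · have k : u2 = 0 := by linarith
      have k3 : m3 = 0 := by
        rcases mul_eq_zero.mp g3 with g | g
        · exact g
        · linarith
      right; right; right; left
      exact ⟨by linarith, e1, k, e3, k3⟩
  · -- y is a vertex
    have c1 : -m0 * (u0 - u2) ≤ 0 := by nlinarith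
    have e1 : -m0 * (u0 - u2) = 0 := by linarith
    have e2 : u1 = 0 := by linarith
    have e3 : (1 - m1) * (u2 - u1) = 0 := by linarith
    have f1 : m0 = 0 := by
      rcases mul_eq_zero.mp e1 with g | g
      · linarith
      · linarith
    have f2 : m1 = 1 := by
      rcases mul_eq_zero.mp e3 with g | g
      · linarith
      · linarith
    left
    exact ⟨f1, f2, by linarith, by linarith⟩

/-- Two negative coordinates, ordered version. -/
theorem k2_ord {l0 l1 l2 l3 m0 m1 m2 m3 u0 u1 u2 u3 : ℝ} (hl0 : l0 ≤ 1) (hl1 : l1 ≤ 1)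
    (hl2 : l2 ≤ 0) (hl3 : l3 ≤ 0) (hl : l0 + l1 + l2 + l3 = 1) (hm0 : m0 ≤ 1) (hm1 : m1 ≤ 1)
    (hm2 : m2 ≤ 0) (hm3 : m3 ≤ 0) (hm : m0 + m1 + m2 + m3 = 1) (hu0 : 0 ≤ u0)
    (h01 : u0 ≤ u1) (hu1 : u1 ≤ 1) (hu3 : 0 ≤ u3) (h32 : u3 ≤ u2) (hu2 : u2 ≤ 1)
    (hx : l0 * u0 + l1 * u1 + l2 * u2 + l3 * u3 = 1)
    (hy : m0 * u0 + m1 * u1 + m2 * u2 + m3 * u3 = 0) :
    l1 = 1 ∧ m0 = 1 ∧ (l2 = 0 ∨ m2 = 0) ∧ (l3 = 0 ∨ m3 = 0) ∧
      (l2 < 0 → l3 < 0 → u0 = 0 ∧ u1 = 1 ∧ u2 = 0 ∧ u3 = 0) ∧
      (m2 < 0 → m3 < 0 → u0 = 0 ∧ u1 = 1 ∧ u2 = 1 ∧ u3 = 1) := by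
  have J1 : -l2 * (u0 - u2) + -l3 * (u0 - u3) = (1 - u1) + (1 - l1) * (u1 - u0) := by
    linear_combination hx - u0 * hl
  have J2 : -m2 * (u2 - u1) + -m3 * (u3 - u1) = u0 + (1 - m0) * (u1 - u0) := by
    linear_combination -hy + u1 * hm
  have a1 : 0 ≤ (1 - l1) * (u1 - u0) := mul_nonneg (by linarith) (by linarith)
  have a2 : 0 ≤ (1 - m0) * (u1 - u0) := mul_nonneg (by linarith) (by linarith)
  rcases le_or_gt u2 u1 with h | h
  · have b1 : -m2 * (u2 - u1) ≤ 0 := by nlinarith
    have b2 : -m3 * (u3 - u1) ≤ 0 := by nlinarith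
    have e0 : u0 = 0 := by linarith
    have e1 : (1 - m0) * (u1 - u0) = 0 := by linarith
    have e2 : -m2 * (u2 - u1) = 0 := by linarith
    have e3 : -m3 * (u3 - u1) = 0 := by linarith
    have hu1pos : 0 < u1 := by
      rcases (le_trans hu0 h01).lt_or_eq with g | g
      · exact g
      · exfalso
        have g2 : u2 = 0 := by linarith
        have g3 : u3 = 0 := by linarith
        rw [e0, ← g, g2, g3] at hx
        norm_num at hx
    have f0 : m0 = 1 := by
      rcases mul_eq_zero.mp e1 with g | g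
      · linarith
      · linarith
    rw [e0] at J1 a1
    have c1 : -l2 * (0 - u2) ≤ 0 := by nlinarith
    have c2 : -l3 * (0 - u3) ≤ 0 := by nlinarith
    have g1 : u1 = 1 := by linarith
    have g2 : (1 - l1) * (u1 - 0) = 0 := by linarith
    have g3 : -l2 * (0 - u2) = 0 := by linarith
    have g4 : -l3 * (0 - u3) = 0 := by linarith
    have f1 : l1 = 1 := by
      rcases mul_eq_zero.mp g2 with g | g
      · linarith
      · linarith
    have p2 : l2 = 0 ∨ u2 = 0 := by
      rcases mul_eq_zero.mp g3 with g | g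
      · left; linarith
      · right; linarith
    have p3 : l3 = 0 ∨ u3 = 0 := by
      rcases mul_eq_zero.mp g4 with g | g
      · left; linarith
      · right; linarith
    have q2 : m2 = 0 ∨ u2 = 1 := by
      rcases mul_eq_zero.mp e2 with g | g
      · left; linarith
      · right; linarith
    have q3 : m3 = 0 ∨ u3 = 1 := by
      rcases mul_eq_zero.mp e3 with g | g
      · left; linarith
      · right; linarith
    refine ⟨f1, f0, ?_, ?_, ?_, ?_⟩
    · rcases p2 with g | g
      · exact Or.inl g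
      · rcases q2 with g' | g'
        · exact Or.inr g'
        · linarith
    · rcases p3 with g | g
      · exact Or.inl g
      · rcases q3 with g' | g'
        · exact Or.inr g'
        · linarith
    · intro k2 k3
      rcases p2 with g | g
      · linarith
      · rcases p3 with g' | g'
        · linarith
        · exact ⟨e0, g1, g, g'⟩
    · intro k2 k3
      rcases q2 with g | g
      · linarith
      · rcases q3 with g' | g'
        · linarith
        · exact ⟨e0, g1, g, g'⟩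
  · have h03 : u3 < u0 := by
      by_contra hc
      push Not at hc
      have c1 : -l2 * (u0 - u2) ≤ 0 := by nlinarith
      have c2 : -l3 * (u0 - u3) ≤ 0 := by nlinarith
      linarith
    have hB : -m2 - m3 ≤ 1 := by linarith
    have hA : -l2 - l3 ≤ 1 := by linarith
    have s1 : 0 ≤ (1 - (-m2 - m3)) * (u2 - u1) := mul_nonneg (by linarith) (by linarith)
    have s2 : 0 ≤ (1 - (-l2 - l3)) * (u0 - u3) := mul_nonneg (by linarith) (by linarith)
    have s3 : 0 ≤ -m3 * (u2 - u3) := mul_nonneg (by linarith) (by linarith)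
    have s4 : 0 ≤ -l2 * (u2 - u3) := mul_nonneg (by linarith) (by linarith)
    have key : (u2 - u3) = 1 + (1 - m0) * (u1 - u0) + (1 - l1) * (u1 - u0) +
        -m3 * (u2 - u3) + -l2 * (u2 - u3) + (1 - (-m2 - m3)) * (u2 - u1) +
        (1 - (-l2 - l3)) * (u0 - u3) := by
      linear_combination J1 + J2
    have t1 : u2 = 1 := by linarith
    have t2 : u3 = 0 := by linarith
    have t3 : -m3 * (u2 - u3) = 0 := by linarith
    have t4 : -l2 * (u2 - u3) = 0 := by linarith
    have t5 : (1 - (-m2 - m3)) * (u2 - u1) = 0 := by linarith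
    have t6 : (1 - (-l2 - l3)) * (u0 - u3) = 0 := by linarith
    have f1 : m3 = 0 := by
      rcases mul_eq_zero.mp t3 with g | g
      · linarith
      · linarith
    have f2 : l2 = 0 := by
      rcases mul_eq_zero.mp t4 with g | g
      · linarith
      · linarith
    have f3 : -m2 - m3 = 1 := by
      rcases mul_eq_zero.mp t5 with g | g
      · linarith
      · linarith
    have f4 : -l2 - l3 = 1 := by
      rcases mul_eq_zero.mp t6 with g | g
      · linarith
      · linarith
    refine ⟨by linarith, by linarith, Or.inl f2, Or.inr f1, ?_, ?_⟩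
    · intro g; linarith
    · intro _ g; linarith

end Pool.Agent.H60.SW
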