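import Pool.Agent.H60.SW.Core3

/-!
# A lexicographically extremal simplex of maximal volume
-/

set_option autoImplicit false

namespace Pool.Agent.H60.SW

open Set

/-- Euclidean space of dimension three. -/
abbrev E3 : Type := EuclideanSpace ℝ (Fin 3)

/-- Homogeneous coordinates. -/
noncomputable def hat (x : E3) : Fin 4 → ℝ := ![1, x 0, x 1, x 2]

/-- The matrix of the homogeneous coordinates of four points. -/
noncomputable def Mt (T : Fin 4 → E3) : Matrix (Fin 4) (Fin 4) ℝ := Matrix.of fun i => hat (T i)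

/-- Six times the signed volume. -/
noncomputable def Vol (T : Fin 4 → E3) : ℝ := (Mt T).det

/-- The barycentric coordinates with respect to four points. -/
noncomputable def lam (T : Fin 4 → E3) (y : E3) : Fin 4 → ℝ :=
  fun i => Vol (Function.update T i y) / Vol T

theorem Mt_update (T : Fin 4 → E3) (i : Fin 4) (y : E3) :
    Mt (Function.update T i y) = (Mt T).updateRow i (hat y) := by
  ext a b
  by_cases h : a = i
  · subst h
    simp [Mt, Matrix.updateRow_self]
  · simp [Mt, Matrix.updateRow_ne h, Function.update_of_ne h]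

theorem continuous_hat : Continuous hat := by
  have c : ∀ i : Fin 3, Continuous fun x : E3 => x i := fun i => by fun_prop
  refine continuous_pi fun i => ?_
  fin_cases i
  exacts [continuous_const, c 0, c 1, c 2]

theorem continuous_Vol : Continuous Vol := by
  unfold Vol
  apply Continuous.matrix_det
  refine continuous_pi fun i => continuous_pi fun c => ?_
  exact (continuous_apply c).comp (continuous_hat.comp (continuous_apply i))

theorem continuous_lam (T : Fin 4 → E3) : Continuous (lam T) := by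
  refine continuous_pi fun i => ?_
  unfold lam
  refine (continuous_Vol.comp ?_).div_const _
  exact continuous_const.update i continuous_id

theorem lam_hat {T : Fin 4 → E3} (hT : Vol T ≠ 0) (y : E3) (c : Fin 4) :
    ∑ i, lam T y i * hat (T i) c = hat y c := by
  have h := congrFun (Matrix.mulVec_cramer (Mt T).transpose (hat y)) c
  rw [Matrix.det_transpose, Pi.smul_apply, smul_eq_mul] at h
  simp only [Matrix.mulVec, dotProduct, Matrix.cramer_transpose_apply, ← Mt_update] at h
  have e : ∑ i, lam T y i * hat (T i) c = (∑ i, (Mt T).transpose c i *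
      (Mt (Function.update T i y)).det) / Vol T := by
    rw [Finset.sum_div]
    refine Finset.sum_congr rfl fun i _ => ?_
    simp only [lam, Vol, Mt, Matrix.transpose_apply, Matrix.of_apply]
    ring
  rw [e, h]
  unfold Vol at hT ⊢
  field_simp

theorem lam_sum {T : Fin 4 → E3} (hT : Vol T ≠ 0) (y : E3) : ∑ i, lam T y i = 1 := by
  have h := lam_hat hT y 0
  simpa [hat] using h

theorem lam_eq {T : Fin 4 → E3} (hT : Vol T ≠ 0) (y : E3) : ∑ i, lam T y i • T i = y := by
  have h1 := lam_hat hT y 1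
  have h2 := lam_hat hT y 2
  have h3 := lam_hat hT y 3
  simp only [hat, Matrix.cons_val] at h1 h2 h3
  ext c
  fin_cases c
  · show (∑ i, lam T y i • T i) 0 = y 0
    rw [← h1]
    simp
  · show (∑ i, lam T y i • T i) 1 = y 1
    rw [← h2]
    simp
  · show (∑ i, lam T y i • T i) 2 = y 2
    rw [← h3]
    simp

/-- Lexicographically positive vectors. -/
def Ps (d : E3) : Prop := 0 < d 0 ∨ (d 0 = 0 ∧ 0 < d 1) ∨ (d 0 = 0 ∧ d 1 = 0 ∧ 0 < d 2)

theorem Ps.smul {d : E3} (h : Ps d) {c : ℝ} (hc : 0 < c) : Ps (c • d) := by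
  rcases h with h | ⟨h, h'⟩ | ⟨h, h', h''⟩
  · exact Or.inl (by simpa using mul_pos hc h)
  · exact Or.inr (Or.inl ⟨by simp [h], by simpa using mul_pos hc h'⟩)
  · exact Or.inr (Or.inr ⟨by simp [h], by simp [h'], by simpa using mul_pos hc h''⟩)

theorem Ps_or {d : E3} (hd : d ≠ 0) : Ps d ∨ Ps (-d) := by
  rcases lt_trichotomy (d 0) 0 with h | h | h
  · exact Or.inr (Or.inl (by simpa using h))
  · rcases lt_trichotomy (d 1) 0 with h' | h' | h'
    · exact Or.inr (Or.inr (Or.inl ⟨by simpa using h, by simpa using h'⟩))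
    · rcases lt_trichotomy (d 2) 0 with h'' | h'' | h''
      · exact Or.inr (Or.inr (Or.inr ⟨by simpa using h, by simpa using h', by simpa using h''⟩))
      · exfalso
        apply hd
        ext c
        fin_cases c
        exacts [h, h', h'']
      · exact Or.inl (Or.inr (Or.inr ⟨h, h', h''⟩))
    · exact Or.inl (Or.inr (Or.inl ⟨h, h'⟩))
  · exact Or.inl (Or.inl h)

theorem exists_lexmax {X : Type*} [TopologicalSpace X] {K : Set X} (hK : IsCompact K)
    (hne : K.Nonempty) (f : X → E3) (hf : Continuous f) :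
    ∃ x ∈ K, ∀ y ∈ K, ¬ Ps (f y - f x) := by
  have c : ∀ i : Fin 3, Continuous fun x => f x i := fun i => by fun_prop
  obtain ⟨a, ha, hamax⟩ := hK.exists_isMaxOn hne (c 0).continuousOn
  have hK1 : IsCompact (K ∩ {x | f x 0 = f a 0}) :=
    hK.inter_right (isClosed_eq (c 0) continuous_const)
  obtain ⟨b, hb, hbmax⟩ := hK1.exists_isMaxOn ⟨a, ha, rfl⟩ (c 1).continuousOn
  have hK2 : IsCompact ((K ∩ {x | f x 0 = f a 0}) ∩ {x | f x 1 = f b 1}) :=
    hK1.inter_right (isClosed_eq (c 1) continuous_const)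
  obtain ⟨e, he, hemax⟩ := hK2.exists_isMaxOn ⟨b, hb, rfl⟩ (c 2).continuousOn
  refine ⟨e, he.1.1, fun y hy hps => ?_⟩
  have e0 : f e 0 = f a 0 := he.1.2
  have e1 : f e 1 = f b 1 := he.2
  rcases hps with h | ⟨h, h'⟩ | ⟨h, h', h''⟩
  · have := hamax hy
    simp only [PiLp.sub_apply] at h
    simp only [mem_ofPred_eq] at this
    linarith
  · simp only [PiLp.sub_apply] at h h'
    have := hbmax (show y ∈ K ∩ {x | f x 0 = f a 0} from ⟨hy, by
      show f y 0 = f a 0
      linarith⟩)
    simp only [mem_ofPred_eq] at this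
    linarith
  · simp only [PiLp.sub_apply] at h h' h''
    have := hemax (show y ∈ (K ∩ {x | f x 0 = f a 0}) ∩ {x | f x 1 = f b 1} from
      ⟨⟨hy, by show f y 0 = f a 0; linarith⟩, by show f y 1 = f b 1; linarith⟩)
    simp only [mem_ofPred_eq] at this
    linarith

/-- The weights of the vertices. -/
def wt : Fin 4 → ℝ := ![-1, 1, 2, 3]

theorem wt0 : wt 0 = -1 := rfl

theorem wt1 : wt 1 = 1 := rfl

theorem wt2 : wt 2 = 2 := rfl

theorem wt3 : wt 3 = 3 := rfl

/-- The functional which is maximised lexicographically. -/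
noncomputable def Ph (T : Fin 4 → E3) : E3 := ∑ i, wt i • T i

theorem continuous_Ph : Continuous Ph := by
  unfold Ph
  fun_prop

theorem Ph_update (T : Fin 4 → E3) (i : Fin 4) (y : E3) :
    Ph (Function.update T i y) - Ph T = wt i • (y - T i) := by
  unfold Ph
  rw [← Finset.sum_sub_distrib, Finset.sum_eq_single i]
  · rw [Function.update_self, smul_sub]
  · intro j _ hj
    rw [Function.update_of_ne hj, sub_self]
  · intro h
    exact absurd (Finset.mem_univ i) h

theorem Ph_swap (T : Fin 4 → E3) {i j : Fin 4} (hij : i ≠ j) :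
    Ph (T ∘ Equiv.swap i j) - Ph T = (wt j - wt i) • (T i - T j) := by
  unfold Ph
  rw [← Finset.sum_sub_distrib, ← Finset.sum_subset (Finset.subset_univ {i, j}),
    Finset.sum_pair hij]
  · simp only [Function.comp_apply, Equiv.swap_apply_left, Equiv.swap_apply_right]
    module
  · intro m _ hm
    have h1 : m ≠ i := fun e => hm (by simp [e])
    have h2 : m ≠ j := fun e => hm (by simp [e])
    rw [Function.comp_apply, Equiv.swap_apply_of_ne_of_ne h1 h2, sub_self]

theorem abs_Vol_swap (T : Fin 4 → E3) (i j : Fin 4) : |Vol (T ∘ Equiv.swap i j)| = |Vol T| := by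
  have h : Mt (T ∘ Equiv.swap i j) = (Mt T).submatrix (Equiv.swap i j) id := by
    ext a b
    rfl
  unfold Vol
  rw [h, Matrix.det_permute, abs_mul]
  rcases Int.units_eq_one_or (Equiv.Perm.sign (Equiv.swap i j)) with e | e
  · rw [e]; simp
  · rw [e]; simp

theorem exists_Vol_ne {F : Set E3} (hF : (interior F).Nonempty) :
    ∃ T : Fin 4 → E3, (∀ i, T i ∈ F) ∧ Vol T ≠ 0 := by
  obtain ⟨x, hx⟩ := hF
  obtain ⟨r, hr, hball⟩ := Metric.isOpen_iff.mp isOpen_interior x hx
  set δ : ℝ := r / 2 with hδ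
  have hδ0 : 0 < δ := by positivity
  have hmem : ∀ c : Fin 3, x + δ • EuclideanSpace.single c (1 : ℝ) ∈ F := by
    intro c
    apply interior_subset
    apply hball
    rw [Metric.mem_ball, dist_eq_norm, add_sub_cancel_left, norm_smul,
      PiLp.norm_single, norm_one, mul_one, Real.norm_of_nonneg hδ0.le]
    linarith
  refine ⟨![x, x + δ • EuclideanSpace.single 0 (1 : ℝ), x + δ • EuclideanSpace.single 1 (1 : ℝ),
    x + δ • EuclideanSpace.single 2 (1 : ℝ)], ?_, ?_⟩
  · intro i
    fin_cases i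
    exacts [interior_subset hx, hmem 0, hmem 1, hmem 2]
  · have : Vol ![x, x + δ • EuclideanSpace.single 0 (1 : ℝ),
        x + δ • EuclideanSpace.single 1 (1 : ℝ), x + δ • EuclideanSpace.single 2 (1 : ℝ)] =
        δ ^ 3 := by
      simp [Vol, Mt, hat, Matrix.det_succ_row_zero, Fin.sum_univ_succ, Fin.succAbove,
        Matrix.submatrix_apply]
      ring
    rw [this]
    positivity

/-- The extremal simplex. -/
theorem exists_simplex {F : Set E3} (hc : IsCompact F) (hF : (interior F).Nonempty) :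
    ∃ T : Fin 4 → E3, (∀ i, T i ∈ F) ∧ Vol T ≠ 0 ∧
      (∀ T' : Fin 4 → E3, (∀ i, T' i ∈ F) → |Vol T'| ≤ |Vol T|) ∧
      ∀ T' : Fin 4 → E3, (∀ i, T' i ∈ F) → |Vol T'| = |Vol T| → ¬ Ps (Ph T' - Ph T) := by
  obtain ⟨T₀, h0, h0v⟩ := exists_Vol_ne hF
  set K : Set (Fin 4 → E3) := Set.pi Set.univ fun _ => F with hK
  have hKc : IsCompact K := isCompact_univ_pi fun _ => hc
  obtain ⟨T₁, h1, h1m⟩ := hKc.exists_isMaxOn ⟨T₀, fun i _ => h0 i⟩
    (continuous_Vol.abs).continuousOn
  have hK1 : IsCompact (K ∩ {T | |Vol T| = |Vol T₁|}) :=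
    hKc.inter_right (isClosed_eq continuous_Vol.abs continuous_const)
  obtain ⟨T, hT, hTm⟩ := exists_lexmax hK1 ⟨T₁, h1, rfl⟩ Ph continuous_Ph
  have hTv : |Vol T| = |Vol T₁| := hT.2
  refine ⟨T, fun i => hT.1 i (Set.mem_univ i), ?_, ?_, ?_⟩
  · have : |Vol T₀| ≤ |Vol T₁| := h1m (show T₀ ∈ K from fun i _ => h0 i)
    have h2 : 0 < |Vol T| := by
      rw [hTv]
      exact lt_of_lt_of_le (abs_pos.mpr h0v) this
    exact abs_pos.mp h2
  · intro T' hT'
    rw [hTv]
    exact h1m (show T' ∈ K from fun i _ => hT' i)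
  · intro T' hT' hv
    exact hTm T' ⟨fun i _ => hT' i, by rw [mem_ofPred_eq, hv, hTv]⟩

theorem sorted {F : Set E3} {T : Fin 4 → E3} (hT : ∀ i, T i ∈ F) (hv : Vol T ≠ 0)
    (hl : ∀ T' : Fin 4 → E3, (∀ i, T' i ∈ F) → |Vol T'| = |Vol T| → ¬ Ps (Ph T' - Ph T))
    {i j : Fin 4} (hij : i < j) : Ps (T j - T i) := by
  have hw : 0 < wt j - wt i := by
    have en : ∀ i j : Fin 4, i < j → (i = 0 ∧ j = 1) ∨ (i = 0 ∧ j = 2) ∨ (i = 0 ∧ j = 3) ∨
        (i = 1 ∧ j = 2) ∨ (i = 1 ∧ j = 3) ∨ (i = 2 ∧ j = 3) := by decide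
    rcases en i j hij with ⟨rfl, rfl⟩ | ⟨rfl, rfl⟩ | ⟨rfl, rfl⟩ | ⟨rfl, rfl⟩ | ⟨rfl, rfl⟩ |
      ⟨rfl, rfl⟩ <;> norm_num [wt0, wt1, wt2, wt3]
  have h1 := hl (T ∘ Equiv.swap i j) (fun m => hT _) (abs_Vol_swap T i j)
  rw [Ph_swap T hij.ne] at h1
  have hne : T i - T j ≠ 0 := by
    intro h0
    apply hv
    unfold Vol
    apply Matrix.det_zero_of_row_eq hij.ne
    show hat (T i) = hat (T j)
    rw [sub_eq_zero.mp h0]
  rcases Ps_or hne with h | h
  · exact absurd (h.smul hw) h1
  · rwa [neg_sub] at h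

/-- The barycentric coordinates of the points of `F` satisfy the hypotheses of the core theorem. -/
theorem exists_ctx {F : Set E3} (hc : IsCompact F) (hF : (interior F).Nonempty) :
    ∃ T : Fin 4 → E3, (∀ i, T i ∈ F) ∧ Vol T ≠ 0 ∧ Ctx (lam T '' F) := by
  obtain ⟨T, hT, hv, hmax, hlex⟩ := exists_simplex hc hF
  have hup : ∀ y ∈ F, ∀ i m, Function.update T i y m ∈ F := by
    intro y hy i m
    by_cases h : m = i
    · subst h
      rwa [Function.update_self]
    · rw [Function.update_of_ne h]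
      exact hT m
  have hle : ∀ y ∈ F, ∀ i, |lam T y i| ≤ 1 := by
    intro y hy i
    unfold lam
    rw [abs_div, div_le_one (abs_pos.mpr hv)]
    exact hmax _ (hup y hy i)
  -- the direction of a ray
  have ray : ∀ i j k l : Fin 4, Dist4 i j k l → ∀ y ∈ F, lam T y i = 1 → lam T y l = 0 →
      lam T y k < 0 → y - T i = (-lam T y k) • (T j - T k) ∧ ¬ Ps (wt i • (y - T i)) := by
    intro i j k l hd y hy hi hl hk
    have hs := lam_sum hv y
    rw [hd.sum] at hs
    have hj : lam T y j = -lam T y k := by linarith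
    have he := lam_eq hv y
    obtain ⟨d1, d2, d3, d4, d5, d6⟩ := id hd
    have hu : (Finset.univ : Finset (Fin 4)) = {i, j, k, l} := by
      ext m
      simpa using hd.cases m
    rw [hu, Finset.sum_insert (by simp [d1, d2, d3]), Finset.sum_insert (by simp [d4, d5]),
      Finset.sum_insert (by simp [d6]), Finset.sum_singleton, hi, hl, hj] at he
    constructor
    · obtain ⟨s, hs'⟩ : ∃ s, lam T y k = s := ⟨_, rfl⟩
      rw [hs'] at he ⊢
      rw [← he]
      module
    · rw [← Ph_update]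
      apply hlex _ (hup y hy i)
      have : Vol (Function.update T i y) = Vol T := by
        have h := hi
        unfold lam at h
        rwa [div_eq_one_iff_eq hv] at h
      rw [this]
  refine ⟨T, hT, hv, hc.image (continuous_lam T), ?_, ?_, ?_, ?_⟩
  · rintro z ⟨y, _, rfl⟩
    exact lam_sum hv y
  · rintro z ⟨y, hy, rfl⟩ i
    exact (abs_le.mp (hle y hy i)).2
  · rintro j k l hd hjk z ⟨y, hy, rfl⟩ h0 hl
    by_contra hneg
    push Not at hneg
    obtain ⟨r1, r2⟩ := ray 0 j k l hd y hy h0 hl hneg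
    apply r2
    have hp := (sorted hT hv hlex hjk).smul (neg_pos.mpr hneg)
    have : wt 0 • (y - T 0) = (-lam T y k) • (T k - T j) := by
      rw [r1]
      rw [wt0]
      module
    rw [this]
    exact hp
  · rintro i j k l hd hi0 hkj z ⟨y, hy, rfl⟩ h1 hl
    by_contra hneg
    push Not at hneg
    obtain ⟨r1, r2⟩ := ray i j k l hd y hy h1 hl hneg
    apply r2
    have hw : 0 < wt i := by
      have en : ∀ i : Fin 4, i ≠ 0 → i = 1 ∨ i = 2 ∨ i = 3 := by decide
      rcases en i hi0 with rfl | rfl | rfl <;> norm_num [wt0, wt1, wt2, wt3]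
    rw [r1]
    exact ((sorted hT hv hlex hkj).smul (neg_pos.mpr hneg)).smul hw

end Pool.Agent.H60.SW
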